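import Pool.Agent.Helper24.MA.Asm.Grp
import Pool.Agent.Helper42.INC.Red3

/-!
# The choice of E and the induction (module MA-38)

`exists_E`: let `α : G → Aut M` be the conjugation action, `P' = P.map α`, not trivial. `Z` = the elements `z` of the center of `P'` (as a subgroup of `Aut M`) with `z ^ p = 1`: a subgroup, elementary abelian, nontrivial (the center of a
nontrivial finite `p`-group is nontrivial, Cauchy). `E = P ⊓ Z.comap α`. Then `E.map α = Z` (`Z ≤ P'`), so `ElAb p (EB M E)`, `E ≤ P` is a `p`-group, `E` does not centralize `M`. If `n` normalizes `P` then `α n` normalizes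
`P'`, hence `Z` (characteristic in `P'`), so `n` normalizes `E`: `N_G(P) ≤ N_G(E)`. `hG` of `Hyp` follows from `M ⊔ N_G(P) = ⊤`.
`sub_hyp`: in `N = N_G(E) ≥ N_G(P)` the subgroup `CE = M ∩ N` satisfies `CE ⊔ N_N(P) = ⊤`: `x` in `N` is `m n`, `m` in `M`, `n` in `N_G(P) ≤ N`, so `m` is in `M ∩ N` (`P` as a Sylow subgroup of `N` is `P.subtype _`). `card_lt`: `M ∩ N_G(E) ≠ M` since otherwise
`E` centralizes `M` (`kap_fixed`).
-/

open MulAction Pool.Agent.Helper42.INC
open scoped Pointwise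

namespace Pool.Agent.Helper24.MA

variable {p : ℕ} [Fact p.Prime] {G : Type} [Group G] [Finite G] (M : Subgroup G) [M.Normal]
  (P : Sylow p G)

/-- the elements of exponent p in the center of the image of the Sylow subgroup -/
private def cenZ : Subgroup (MulAut M) where
  carrier := {z | z ∈ (P : Subgroup G).map (DM M).α ∧
    (∀ y ∈ (P : Subgroup G).map (DM M).α, z * y = y * z) ∧ z ^ p = 1}
  one_mem' := ⟨Subgroup.one_mem _, fun y _ => by rw [one_mul, mul_one], one_pow p⟩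
  mul_mem' := by
    rintro a b ⟨ha1, ha2, ha3⟩ ⟨hb1, hb2, hb3⟩
    refine ⟨Subgroup.mul_mem _ ha1 hb1, fun y hy => ?_, ?_⟩
    · rw [mul_assoc, hb2 y hy, ← mul_assoc, ha2 y hy, mul_assoc]
    · have h : Commute a b := ha2 b hb1
      rw [h.mul_pow, ha3, hb3, one_mul]
  inv_mem' := by
    rintro a ⟨ha1, ha2, ha3⟩
    refine ⟨Subgroup.inv_mem _ ha1, fun y hy => ?_, ?_⟩
    · have h : Commute a y := ha2 y hy
      exact h.inv_left
    · rw [inv_pow, ha3, inv_one]

omit [Fact p.Prime] [Finite G] in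
private lemma mem_cenZ (z : MulAut M) : z ∈ cenZ M P ↔ z ∈ (P : Subgroup G).map (DM M).α ∧
    (∀ y ∈ (P : Subgroup G).map (DM M).α, z * y = y * z) ∧ z ^ p = 1 := Iff.rfl

private lemma conj_map {n : G} (hn : n ∈ Subgroup.normalizer (P : Set G)) {y : MulAut M}
    (hy : y ∈ (P : Subgroup G).map (DM M).α) :
    (DM M).α n * y * ((DM M).α n)⁻¹ ∈ (P : Subgroup G).map (DM M).α := by
  obtain ⟨q, hq, rfl⟩ := hy
  refine ⟨n * q * n⁻¹, normalizer_conj_mem' hn hq, ?_⟩
  rw [map_mul, map_mul, map_inv]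

private lemma conj_cenZ {n : G} (hn : n ∈ Subgroup.normalizer (P : Set G)) {z : MulAut M}
    (hz : z ∈ cenZ M P) : (DM M).α n * z * ((DM M).α n)⁻¹ ∈ cenZ M P := by
  obtain ⟨h1, h2, h3⟩ := hz
  refine ⟨conj_map M P hn h1, fun y hy => ?_, ?_⟩
  · have hn' : n⁻¹ ∈ Subgroup.normalizer (P : Set G) := Subgroup.inv_mem _ hn
    have h4 := conj_map M P hn' hy
    have h5 := h2 _ h4
    rw [map_inv, inv_inv] at h5
    have h6 : (DM M).α n * z * ((DM M).α n)⁻¹ * y =
        (DM M).α n * (z * (((DM M).α n)⁻¹ * y * (DM M).α n)) * ((DM M).α n)⁻¹ := by group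
    rw [h6, h5]
    group
  · rw [conj_pow, h3, mul_one, mul_inv_cancel]

private lemma cenZ_ne (hP : ¬ ∀ q ∈ P, ∀ m ∈ M, q * m = m * q) :
    ∃ z ∈ cenZ M P, z ≠ 1 := by
  set P' := (P : Subgroup G).map (DM M).α with hP'
  have hfin : Finite P' := by
    have h1 : Finite ((P : Subgroup G).map (DM M).α : Set (MulAut M)) := by
      rw [Subgroup.coe_map]
      exact Set.Finite.image _ (Set.toFinite _)
    exact h1
  have hpg : IsPGroup p P' := P.isPGroup'.map (DM M).α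
  have hnt : Nontrivial P' := by
    push Not at hP
    obtain ⟨q, hq, m, hm, hqm⟩ := hP
    refine ⟨⟨⟨(DM M).α q, q, hq, rfl⟩, 1, ?_⟩⟩
    intro h
    have h1 : (DM M).α q = 1 := congrArg Subtype.val h
    apply hqm
    have h2 := (DM M).compat q ⟨m, hm⟩
    rw [h1] at h2
    have h3 : (m : G) = q * m * q⁻¹ := h2
    rw [eq_mul_inv_iff_mul_eq] at h3
    exact h3.symm
  have hc := IsPGroup.center_nontrivial hpg
  have hcp : IsPGroup p (Subgroup.center P') := hpg.to_subgroup _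
  obtain ⟨n, hn0, hn⟩ := hcp.nontrivial_iff_card.1 hc
  have hdvd : p ∣ Nat.card (Subgroup.center P') := by
    rw [hn]
    exact dvd_pow_self p hn0.ne'
  obtain ⟨x, hx⟩ := exists_prime_orderOf_dvd_card' p hdvd
  refine ⟨((x : P') : MulAut M), ⟨(x : P').2, fun y hy => ?_, ?_⟩, ?_⟩
  · have h1 := Subgroup.mem_center_iff.1 x.2 ⟨y, hy⟩
    exact (congrArg Subtype.val h1).symm
  · have h1 : x ^ p = 1 := by
      rw [← hx]
      exact pow_orderOf_eq_one x
    have h2 := congrArg (fun t : Subgroup.center P' => ((t : P') : MulAut M)) h1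
    exact h2
  · intro h
    have h1 : x = 1 := Subtype.ext (Subtype.ext h)
    rw [h1, orderOf_one] at hx
    exact (Fact.out : p.Prime).one_lt.ne hx

theorem exists_E (hM : ¬ p ∣ Nat.card M) (hG : M ⊔ Subgroup.normalizer (P : Set G) = ⊤)
    (hP : ¬ ∀ q ∈ P, ∀ m ∈ M, q * m = m * q) :
    ∃ E : Subgroup G, Hyp M E p ∧ E ≤ P ∧ Subgroup.normalizer (P : Set G) ≤ NE E ∧
      ¬ ∀ e ∈ E, ∀ m ∈ M, e * m = m * e := by
  set E : Subgroup G := (P : Subgroup G) ⊓ (cenZ M P).comap (DM M).α with hE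
  have hmem : ∀ g, g ∈ E ↔ g ∈ P ∧ (DM M).α g ∈ cenZ M P := fun g => Iff.rfl
  have hEB : ∀ x : EB M E, (x : MulAut M) ∈ cenZ M P := by
    rintro ⟨_, e, he, rfl⟩
    exact ((hmem e).1 he).2
  have hNE : Subgroup.normalizer (P : Set G) ≤ NE E := by
    intro n hn
    refine (Subgroup.mem_normalizer_iff (H := E)).2 (fun x => ?_)
    rw [hmem, hmem]
    constructor
    · rintro ⟨h1, h2⟩
      refine ⟨normalizer_conj_mem' hn h1, ?_⟩
      rw [map_mul, map_mul, map_inv]
      exact conj_cenZ M P hn h2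
    · rintro ⟨h1, h2⟩
      have hn' : n⁻¹ ∈ Subgroup.normalizer (P : Set G) := Subgroup.inv_mem _ hn
      have h3 := normalizer_conj_mem' hn' h1
      have h4 := conj_cenZ M P hn' h2
      have h5 : n⁻¹ * (n * x * n⁻¹) * n⁻¹⁻¹ = x := by group
      rw [h5] at h3
      rw [← map_inv, ← map_mul, ← map_mul, h5] at h4
      exact ⟨h3, h4⟩
  refine ⟨E, ⟨hM, P.isPGroup'.to_le inf_le_left, ⟨?_, ?_⟩, ?_⟩, inf_le_left, hNE, ?_⟩
  · intro x y
    apply Subtype.ext
    exact (hEB x).2.1 _ (hEB y).1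
  · intro x
    apply Subtype.ext
    exact (hEB x).2.2
  · rw [eq_top_iff, ← hG]
    exact sup_le_sup_left hNE M
  · intro hcen
    obtain ⟨z, hz, hz1⟩ := cenZ_ne M P hP
    obtain ⟨q, hq, rfl⟩ := hz.1
    apply hz1
    ext m
    have h1 := (DM M).compat q m
    have h2 := hcen q ((hmem q).2 ⟨hq, hz⟩) m.1 m.2
    have h3 : (DM M).ι m = m.1 := rfl
    rw [h3, h2, mul_inv_cancel_right] at h1
    exact h1

theorem card_lt {E : Subgroup G} (h : Hyp M E p) (hE : ¬ ∀ e ∈ E, ∀ m ∈ M, e * m = m * e) :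
    Nat.card (CE M E) < Nat.card M := by
  refine lt_of_le_of_ne (Nat.card_le_card_of_injective (kap M E) kap_injective) ?_
  intro hcard
  apply hE
  have hbij : Function.Bijective (kap M E) :=
    (Nat.bijective_iff_injective_and_card _).2 ⟨kap_injective, hcard⟩
  intro e he m hm
  obtain ⟨c, hc⟩ := hbij.2 ⟨m, hm⟩
  have h1 := kap_fixed h ⟨(DM M).α e, e, he, rfl⟩ c
  rw [hc] at h1
  have h2 := (DM M).compat e ⟨m, hm⟩
  have h3 : (DM M).α e ⟨m, hm⟩ = ⟨m, hm⟩ := h1
  rw [h3] at h2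
  have h4 : m = e * m * e⁻¹ := h2
  rw [eq_mul_inv_iff_mul_eq] at h4
  exact h4.symm

theorem sub_hyp {E : Subgroup G} (hG : M ⊔ Subgroup.normalizer (P : Set G) = ⊤)
    (hN : Subgroup.normalizer (P : Set G) ≤ NE E) (hPN : (P : Subgroup G) ≤ NE E) :
    CE M E ⊔ Subgroup.normalizer ((P.subtype hPN : Sylow p (NE E)) : Set (NE E)) = ⊤ := by
  rw [eq_top_iff]
  intro x _
  have hx : (x : G) ∈ M ⊔ Subgroup.normalizer (P : Set G) := by
    rw [hG]
    exact Subgroup.mem_top _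
  rw [Subgroup.mem_sup_of_normal_left] at hx
  obtain ⟨m, hm, n, hn, hmn⟩ := hx
  have hnE : n ∈ NE E := hN hn
  have hmE : m ∈ NE E := by
    have h1 : m = x * n⁻¹ := by
      rw [← hmn]
      group
    rw [h1]
    exact Subgroup.mul_mem _ x.2 (Subgroup.inv_mem _ hnE)
  have h1 : x = (⟨m, hmE⟩ : NE E) * ⟨n, hnE⟩ := Subtype.ext hmn.symm
  rw [h1]
  refine Subgroup.mul_mem_sup (S := CE M E) hm ?_
  refine Subgroup.mem_normalizer_iff.2 (fun y => ?_)
  have h2 : ∀ z : NE E, z ∈ (P.subtype hPN : Subgroup (NE E)) ↔ (z : G) ∈ P := fun z => Iff.rfl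
  have h3 := Subgroup.mem_normalizer_iff.1 hn (y : G)
  exact h3

end Pool.Agent.Helper24.MA
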