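import Pool.Agent.Helper24.MA.Asm.Step
import Pool.Agent.Helper24.MA.Asm.ChooseE

/-!
# Case A (module MA-39)

Strong induction on `|M|` (over all `G`, `M`, `P`). If `P` centralizes `M` then `M ≤ N_G(P)`, so `N_G(P) = ⊤`: `mcKay_of_normalizer_top`. Otherwise take `E` of `exists_E`. By `step_cnt`,
`cnt p G s = cnt p (NE E) s` for `s ≠ 0`. By induction (`card_lt`, `sub_hyp`, `card_CE`) `McKayCongr p (NE E)`, so by `mcKay_iff` for `P.subtype` `cnt p (NE E) s = cnt p (normalizer of P.subtype in NE E) s`, which is
`cnt p (normalizer of P) s` by `normSubEquiv` and `cnt_congr`. Conclude with `mcKay_iff`.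
-/

open MulAction Pool.Agent.Helper42.INC
open scoped Pointwise

namespace Pool.Agent.Helper24.MA

private theorem caseA_aux (p : ℕ) [Fact p.Prime] (k : ℕ) : ∀ (G : Type) [Group G] [Finite G]
    (M : Subgroup G) [M.Normal], Nat.card M = k → ¬ p ∣ Nat.card M → ∀ P : Sylow p G,
    M ⊔ Subgroup.normalizer (P : Set G) = ⊤ → McKayCongr p G := by
  induction k using Nat.strong_induction_on with
  | _ k ih =>
    intro G _ _ M _ hk hM P hG
    by_cases hP : ∀ q ∈ P, ∀ m ∈ M, q * m = m * q
    · apply mcKay_of_normalizer_top P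
      rw [eq_top_iff, ← hG]
      refine sup_le ?_ le_rfl
      intro m hm
      refine Subgroup.mem_normalizer_iff.2 (fun q => ?_)
      constructor
      · intro hq
        have h1 : m * q * m⁻¹ = q := by
          rw [← hP q hq m hm]
          group
        rw [h1]
        exact hq
      · intro hq
        have h1 := hP _ hq m hm
        have h2 : m * q * m⁻¹ = q := by
          have h3 : m * q = m * (m * q * m⁻¹) := by
            rw [← h1]
            group
          exact (mul_left_cancel h3).symm
        rw [h2] at hq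
        exact hq
    · obtain ⟨E, hHyp, hEP, hNE, hE⟩ := exists_E M P hM hG hP
      have hPN : (P : Subgroup G) ≤ NE E := le_trans Subgroup.le_normalizer hNE
      have hMc := ih (Nat.card (CE M E)) (by rw [← hk]; exact card_lt M hHyp hE) (NE E) (CE M E) rfl
        (card_CE hHyp) (P.subtype hPN) (sub_hyp M P hG hNE hPN)
      rw [mcKay_iff P]
      intro s hs
      rw [step_cnt hHyp P hEP s hs, (mcKay_iff (P.subtype hPN)).1 hMc s hs]
      exact cnt_congr (normSubEquiv P (NE E) hPN hNE) s

theorem caseA (p : ℕ) [Fact p.Prime] (G : Type) [Group G] [Finite G] (M : Subgroup G)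
    [M.Normal] (hM : ¬ p ∣ Nat.card M) (P : Sylow p G)
    (hG : M ⊔ Subgroup.normalizer (P : Set G) = ⊤) : McKayCongr p G :=
  caseA_aux p (Nat.card M) G M rfl hM P hG

end Pool.Agent.Helper24.MA
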