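import Pool.Agent.Helper24.MA.Asm.Grp

/-!
# Counting characters of the two quotients on the fibre product (module MA-34)

`P1`, `P2` describe the characters of the fibre product `Xf` which come from the quotients `TStar θ`, `TStar φ` with the prescribed scalars.
PROOF of `cntR_one`. `q : Xf → TStar θ`, `x ↦ toStar x.1.1` is surjective: let `γ` be in `Gam θ`, `g = gamProj γ`; `g = m n`, `m` in `M`, `n` in `N_G(E)` (`exists_decomp`); `γ' = (gamInc m)⁻¹ γ` has projection `n`, so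
`n • θ = θ` (`range_gamProj`), so `n • φ = φ` (`hst`) and there is `δ` in `Gam φ` over `n`; `(γ', δ)` is in `Xf` and `toStar γ' = toStar γ`. Kernel: the `x` with `x.1.1` in the range of `gamInc`. `inflEquiv q`: irreducible
characters of `TStar θ` are the same as irreducible characters of `Xf` invariant under multiplication by the kernel, same degree. If `η` is over `invSc` then `χ = η ∘ q` satisfies `P1`: if
`x.1.1 = gamInc (kap c) * gamSc z` then `q x = scStar z`. Conversely if `χ` satisfies `P1` and `x` is in the kernel of `q`, `x.1.1 = gamInc m`, then `gamProj x.1.2 = m` is in `M ∩ N_G(E)`, so `m = kap c` with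
`c = gamProj x.1.2`, and `x.1.2 = gamInc c * gamSc z'` for some `z'` (`gam_ker`), `z = 1`: `P1` gives `χ (x y) = χ y`; so `χ = η ∘ q`, and `Over (scStar) invSc η`: for `z`, take the element `x = (gamSc z, 1)` of
`Xf`, `c = 1`, `z' = 1`. `cntR_two`: the same with the roles exchanged; surjectivity of `x ↦ toStar x.1.2`: for `δ` over `n`, `n • φ = φ`, so `(n : G) • θ = θ` and there is `γ` over `n`.
`cntR_twist`: `χ ↦ L χ` is a bijection from the irreducible characters with `P1` to those with `P2` (`irr_linTwist` in Red2, inverse `L⁻¹`), the degree is the same since `L 1 = 1`: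
`(L χ)(x y) = L x L y z⁻¹ χ y = (z / z') z⁻¹ (L χ) y = z'⁻¹ (L χ) y`.
-/

open MulAction Pool.Agent.Helper42.INC
open scoped Pointwise

namespace Pool.Agent.Helper24.MA

section defs

variable {G : Type} [Group G] [Finite G] {M : Subgroup G} [M.Normal] {E : Subgroup G}

/-- the characters coming from the first factor -/
def P1 (θ : IrrX (DM M)) (φ : IrrX (DC M E)) (χ : Xf M E θ φ → ℂ) : Prop :=
  ∀ (x : Xf M E θ φ) (c : CE M E) (z : Sc M θ.V) (z' : Sc (CE M E) φ.V),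
    x.1.1 = gamInc (DM M) θ.rep (kap M E c) * gamSc (DM M) θ.rep z →
    x.1.2 = gamInc (DC M E) φ.rep c * gamSc (DC M E) φ.rep z' →
    ∀ y, χ (x * y) = ((z.1 : ℂˣ) : ℂ)⁻¹ * χ y

/-- the characters coming from the second factor -/
def P2 (θ : IrrX (DM M)) (φ : IrrX (DC M E)) (χ : Xf M E θ φ → ℂ) : Prop :=
  ∀ (x : Xf M E θ φ) (c : CE M E) (z : Sc M θ.V) (z' : Sc (CE M E) φ.V),
    x.1.1 = gamInc (DM M) θ.rep (kap M E c) * gamSc (DM M) θ.rep z →
    x.1.2 = gamInc (DC M E) φ.rep c * gamSc (DC M E) φ.rep z' →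
    ∀ y, χ (x * y) = ((z'.1 : ℂˣ) : ℂ)⁻¹ * χ y

end defs

variable {G : Type} [Group G] [Finite G] {M : Subgroup G} [M.Normal] {E : Subgroup G} {p : ℕ}
  [Fact p.Prime]

private lemma mem_Xf (θ : IrrX (DM M)) (φ : IrrX (DC M E))
    (x : Gam (DM M) θ.rep × Gam (DC M E) φ.rep) :
    x ∈ Xf M E θ φ ↔ gamProj (DM M) θ.rep x.1 = ((gamProj (DC M E) φ.rep x.2 : NE E) : G) := Iff.rfl

private noncomputable def q1 (θ : IrrX (DM M)) (φ : IrrX (DC M E)) :
    Xf M E θ φ →* TStar (DM M) θ.rep :=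
  (toStar (DM M) θ.rep).comp ((MonoidHom.fst _ _).comp (Xf M E θ φ).subtype)

private lemma q1_apply (θ : IrrX (DM M)) (φ : IrrX (DC M E)) (x : Xf M E θ φ) :
    q1 θ φ x = toStar (DM M) θ.rep x.1.1 := rfl

private lemma toStar_inc (θ : IrrX (DM M)) (m : M) :
    toStar (DM M) θ.rep (gamInc (DM M) θ.rep m) = 1 :=
  (QuotientGroup.eq_one_iff _).2 ⟨m, rfl⟩

private lemma q1_surj (h : Hyp M E p) (θ : IrrX (DM M)) (φ : IrrX (DC M E))
    (hst : ∀ n : NE E, (n : G) • θ = θ ↔ n • φ = φ) : Function.Surjective (q1 θ φ) := by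
  intro y
  obtain ⟨γ, rfl⟩ := QuotientGroup.mk'_surjective _ y
  obtain ⟨m, hm, n, hn, hmn⟩ := exists_decomp h (gamProj (DM M) θ.rep γ)
  set γ' := (gamInc (DM M) θ.rep ⟨m, hm⟩)⁻¹ * γ with hγ'
  have h1 : gamProj (DM M) θ.rep γ' = n := by
    rw [hγ', map_mul, map_inv, gamProj_inc, hmn]
    change m⁻¹ * (m * n) = n
    rw [inv_mul_cancel_left]
  have h2 : (n : G) • θ = θ := by
    have h3 : n ∈ (gamProj (DM M) θ.rep).range := ⟨γ', h1⟩
    rw [range_gamProj] at h3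
    exact h3
  have h4 : (⟨n, hn⟩ : NE E) • φ = φ := (hst ⟨n, hn⟩).1 h2
  have h5 : (⟨n, hn⟩ : NE E) ∈ (gamProj (DC M E) φ.rep).range := by
    rw [range_gamProj]
    exact h4
  obtain ⟨δ, hδ⟩ := h5
  refine ⟨⟨(γ', δ), ?_⟩, ?_⟩
  · rw [mem_Xf, hδ]
    exact h1
  · rw [q1_apply]
    change toStar (DM M) θ.rep γ' = toStar (DM M) θ.rep γ
    rw [hγ', map_mul, map_inv, toStar_inc, inv_one, one_mul]

private lemma invSc_val {M' V' : Type} [Group M'] [AddCommGroup V'] [Module ℂ V'] (c : Sc M' V') :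
    ((invSc c : ℂˣ) : ℂ) = (c.1 : ℂ)⁻¹ := by
  change (((c.1)⁻¹ : ℂˣ) : ℂ) = _
  rw [Units.val_inv_eq_inv_val]

private lemma over_iff (h : Hyp M E p) (θ : IrrX (DM M)) (φ : IrrX (DC M E))
    (hst : ∀ n : NE E, (n : G) • θ = θ ↔ n • φ = φ) (η : TStar (DM M) θ.rep → ℂ) :
    Over (scStar (DM M) θ.rep) (invSc (M := M) (V := θ.V)) η ↔
      P1 θ φ (fun x => η (q1 θ φ x)) := by
  constructor
  · intro ho x c z z' hx1 _ y
    have h1 : q1 θ φ x = scStar (DM M) θ.rep z := by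
      rw [q1_apply, hx1, map_mul, toStar_inc, one_mul]
      rfl
    have h2 := ho z (q1 θ φ y)
    rw [invSc_val] at h2
    simp only [map_mul, h1]
    exact h2
  · intro hP z y
    obtain ⟨y', rfl⟩ := q1_surj h θ φ hst y
    have hx : ((gamSc (DM M) θ.rep z, 1) : Gam (DM M) θ.rep × Gam (DC M E) φ.rep) ∈
        Xf M E θ φ := by
      rw [mem_Xf, gamProj_sc, map_one]
      rfl
    have h1 := hP ⟨_, hx⟩ 1 z 1 (by simp) (by simp) y'
    have h2 : q1 θ φ ⟨_, hx⟩ = scStar (DM M) θ.rep z := rfl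
    simp only [map_mul, h2] at h1
    rw [invSc_val]
    exact h1

private lemma ker_inv {θ : IrrX (DM M)} {φ : IrrX (DC M E)} {χ : Xf M E θ φ → ℂ}
    (hP : P1 θ φ χ) : ∀ k ∈ (q1 θ φ).ker, ∀ x, χ (k * x) = χ x := by
  intro k hk y
  have hk' : toStar (DM M) θ.rep k.1.1 = 1 := hk
  obtain ⟨m, hm⟩ := (QuotientGroup.eq_one_iff _).1 hk'
  have h1 : gamProj (DM M) θ.rep k.1.1 = ((gamProj (DC M E) φ.rep k.1.2 : NE E) : G) := k.2
  have h2 : gamProj (DM M) θ.rep k.1.1 = m := by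
    rw [← hm, gamProj_inc]
    rfl
  have h3 : ((gamProj (DC M E) φ.rep k.1.2 : NE E) : G) = m := by rw [← h1, h2]
  set c : CE M E := ⟨gamProj (DC M E) φ.rep k.1.2, by
    rw [Subgroup.mem_subgroupOf, h3]
    exact m.2⟩ with hc
  have h4 : kap M E c = m := Subtype.ext h3
  have h5 : gamProj (DC M E) φ.rep ((gamInc (DC M E) φ.rep c)⁻¹ * k.1.2) = 1 := by
    rw [map_mul, map_inv, gamProj_inc]
    exact inv_mul_cancel _
  obtain ⟨z', hz'⟩ := gam_ker _ φ.rep h5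
  have h6 := hP k c 1 z' (by rw [h4, map_one, mul_one, hm]) (by rw [← hz', mul_inv_cancel_left]) y
  rw [h6]
  simp

theorem cntR_one (h : Hyp M E p) (θ : IrrX (DM M)) (φ : IrrX (DC M E))
    (hst : ∀ n : NE E, (n : G) • θ = θ ↔ n • φ = φ) (s : ZMod p) :
    cntR p (scStar (DM M) θ.rep) (invSc (M := M) (V := θ.V)) s =
      Nat.card {χ : Irr (Xf M E θ φ) // P1 θ φ χ.1 ∧ (deg χ.1 : ZMod p) ^ 2 = s} := by
  classical
  unfold cntR
  have hsurj := q1_surj h θ φ hst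
  have e1 : {χ : Irr (Xf M E θ φ) // P1 θ φ χ.1 ∧ (deg χ.1 : ZMod p) ^ 2 = s} ≃
      {χ : {χ : Irr (Xf M E θ φ) // ∀ k ∈ (q1 θ φ).ker, ∀ x, χ.1 (k * x) = χ.1 x} //
        P1 θ φ χ.1.1 ∧ (deg χ.1.1 : ZMod p) ^ 2 = s} := by
    refine ((Equiv.subtypeSubtypeEquivSubtypeInter
      (fun χ : Irr (Xf M E θ φ) => ∀ k ∈ (q1 θ φ).ker, ∀ x, χ.1 (k * x) = χ.1 x)
      (fun χ : Irr (Xf M E θ φ) => P1 θ φ χ.1 ∧ (deg χ.1 : ZMod p) ^ 2 = s)).trans
      (Equiv.subtypeEquivRight (fun χ => ?_))).symm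
    constructor
    · rintro ⟨_, h2, h3⟩
      exact ⟨h2, h3⟩
    · rintro ⟨h2, h3⟩
      exact ⟨ker_inv h2, h2, h3⟩
  rw [Nat.card_congr e1]
  apply Nat.card_congr
  refine (inflEquiv (q1 θ φ) hsurj).subtypeEquiv ?_
  intro η
  have hd : deg ((inflEquiv (q1 θ φ) hsurj) η).1.1 = deg η.1 := by
    change deg (fun x => η.1 (q1 θ φ x)) = _
    unfold deg
    simp only [map_one]
  have hval : ((inflEquiv (q1 θ φ) hsurj) η).1.1 = fun x => η.1 (q1 θ φ x) := rfl
  rw [hd, hval, over_iff h θ φ hst]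

end Pool.Agent.Helper24.MA
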