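import Pool.Agent.Helper24.MA.Asm.CntA
import Pool.Agent.Helper42.INC.Red2

/-!
# Counting characters of the two quotients on the fibre product, second part (module MA-35)

See the doc comment of `Asm/CntA.lean` (`cntR_two`, `cntR_twist`).
-/

open MulAction Pool.Agent.Helper42.INC
open scoped Pointwise

namespace Pool.Agent.Helper24.MA

variable {G : Type} [Group G] [Finite G] {M : Subgroup G} [M.Normal] {E : Subgroup G} {p : ℕ}
  [Fact p.Prime]

/-- the projection of the fibre product onto the quotient of the second factor -/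
private noncomputable def q2 (θ : IrrX (DM M)) (φ : IrrX (DC M E)) :
    Xf M E θ φ →* TStar (DC M E) φ.rep :=
  (toStar (DC M E) φ.rep).comp ((MonoidHom.snd _ _).comp (Xf M E θ φ).subtype)

omit [Fact p.Prime] in
private theorem q2_surjective (θ : IrrX (DM M)) (φ : IrrX (DC M E))
    (hst : ∀ n : NE E, (n : G) • θ = θ ↔ n • φ = φ) : Function.Surjective (q2 (E := E) θ φ) := by
  intro y
  obtain ⟨δ, rfl⟩ := QuotientGroup.mk'_surjective _ y
  have h1 : gamProj (DC M E) φ.rep δ ∈ MulAction.stabilizer (NE E) φ := by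
    rw [← range_gamProj]
    exact ⟨δ, rfl⟩
  rw [MulAction.mem_stabilizer_iff] at h1
  have h2 := (hst _).2 h1
  have h3 : ((gamProj (DC M E) φ.rep δ : NE E) : G) ∈ (gamProj (DM M) θ.rep).range := by
    rw [range_gamProj, MulAction.mem_stabilizer_iff]
    exact h2
  obtain ⟨γ, hγ⟩ := h3
  refine ⟨⟨(γ, δ), ?_⟩, rfl⟩
  exact hγ

private theorem Xf_proj (θ : IrrX (DM M)) (φ : IrrX (DC M E)) (x : Xf M E θ φ) :
    gamProj (DM M) θ.rep x.1.1 = ((gamProj (DC M E) φ.rep x.1.2 : NE E) : G) := x.2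

private theorem exists_z_of_snd (θ : IrrX (DM M)) (φ : IrrX (DC M E)) (x : Xf M E θ φ)
    (c : CE M E) (z' : Sc (CE M E) φ.V)
    (hx : x.1.2 = gamInc (DC M E) φ.rep c * gamSc (DC M E) φ.rep z') :
    ∃ z : Sc M θ.V, x.1.1 = gamInc (DM M) θ.rep (kap M E c) * gamSc (DM M) θ.rep z := by
  have h1 : gamProj (DM M) θ.rep ((gamInc (DM M) θ.rep (kap M E c))⁻¹ * x.1.1) = 1 := by
    rw [map_mul, map_inv, Xf_proj, hx, map_mul, gamProj_sc, mul_one, gamProj_inc, gamProj_inc]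
    exact inv_mul_cancel _
  obtain ⟨z, hz⟩ := gam_ker (DM M) θ.rep h1
  refine ⟨z, ?_⟩
  rw [← hz, mul_inv_cancel_left]

private theorem q2_apply (θ : IrrX (DM M)) (φ : IrrX (DC M E)) (x : Xf M E θ φ)
    (c : CE M E) (z' : Sc (CE M E) φ.V)
    (hx : x.1.2 = gamInc (DC M E) φ.rep c * gamSc (DC M E) φ.rep z') :
    q2 (E := E) θ φ x = scStar (DC M E) φ.rep z' := by
  change toStar (DC M E) φ.rep x.1.2 = toStar (DC M E) φ.rep (gamSc (DC M E) φ.rep z')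
  rw [hx, map_mul]
  have h1 : toStar (DC M E) φ.rep (gamInc (DC M E) φ.rep c) = 1 :=
    (QuotientGroup.eq_one_iff _).2 ⟨c, rfl⟩
  rw [h1, one_mul]

theorem cntR_two (θ : IrrX (DM M)) (φ : IrrX (DC M E))
    (hst : ∀ n : NE E, (n : G) • θ = θ ↔ n • φ = φ) (s : ZMod p) :
    cntR p (scStar (DC M E) φ.rep) (invSc (M := CE M E) (V := φ.V)) s =
      Nat.card {χ : Irr (Xf M E θ φ) // P2 θ φ χ.1 ∧ (deg χ.1 : ZMod p) ^ 2 = s} := by
  classical
  have hsurj := q2_surjective (E := E) θ φ hst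
  have e1 : {χ : Irr (Xf M E θ φ) // P2 θ φ χ.1 ∧ (deg χ.1 : ZMod p) ^ 2 = s} ≃
      {ψ : {χ : Irr (Xf M E θ φ) // ∀ k ∈ (q2 (E := E) θ φ).ker, ∀ x, χ.1 (k * x) = χ.1 x} //
        P2 θ φ ψ.1.1 ∧ (deg ψ.1.1 : ZMod p) ^ 2 = s} := by
    refine ((Equiv.subtypeSubtypeEquivSubtypeInter
      (fun ψ : Irr (Xf M E θ φ) => ∀ k ∈ (q2 (E := E) θ φ).ker, ∀ x, ψ.1 (k * x) = ψ.1 x)
      (fun ψ : Irr (Xf M E θ φ) => P2 θ φ ψ.1 ∧ (deg ψ.1 : ZMod p) ^ 2 = s)).trans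
      (Equiv.subtypeEquivRight (fun ψ => ?_))).symm
    constructor
    · rintro ⟨h1, h2⟩
      exact h2
    · rintro ⟨h1, h2⟩
      refine ⟨?_, h1, h2⟩
      intro k hk y
      have hk2 : k.1.2 ∈ (gamInc (DC M E) φ.rep).range := by
        rw [MonoidHom.mem_ker] at hk
        exact (QuotientGroup.eq_one_iff _).1 hk
      obtain ⟨c, hc⟩ := hk2
      have hx2 : k.1.2 = gamInc (DC M E) φ.rep c * gamSc (DC M E) φ.rep 1 := by
        rw [map_one, mul_one, hc]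
      obtain ⟨z, hz⟩ := exists_z_of_snd θ φ k c 1 hx2
      have h3 := h1 k c z 1 hz hx2 y
      rw [h3]
      simp
  rw [Nat.card_congr e1]
  unfold cntR
  apply Nat.card_congr
  refine (inflEquiv (q2 (E := E) θ φ) hsurj).subtypeEquiv ?_
  intro η
  have hval : ∀ x, ((inflEquiv (q2 (E := E) θ φ) hsurj) η).1.1 x = η.1 (q2 (E := E) θ φ x) :=
    fun x => rfl
  have hd : deg ((inflEquiv (q2 (E := E) θ φ) hsurj) η).1.1 = deg η.1 := by
    change deg (fun x => η.1 (q2 (E := E) θ φ x)) = _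
    unfold deg
    simp only [map_one]
  have e4 : ∀ z' : Sc (CE M E) φ.V, ((invSc z' : ℂˣ) : ℂ) = ((z'.1 : ℂˣ) : ℂ)⁻¹ := by
    intro z'
    change (((z'.1)⁻¹ : ℂˣ) : ℂ) = _
    rw [Units.val_inv_eq_inv_val]
  rw [hd]
  apply and_congr_left
  intro _
  constructor
  · intro h1 x c z z' hx1 hx2 y
    rw [hval, hval, map_mul, q2_apply θ φ x c z' hx2, h1 z', e4]
  · intro h1 z' w
    obtain ⟨y, rfl⟩ := hsurj w
    have hmem : ((1 : Gam (DM M) θ.rep), gamSc (DC M E) φ.rep z') ∈ Xf M E θ φ := by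
      change gamProj (DM M) θ.rep 1 = ((gamProj (DC M E) φ.rep (gamSc (DC M E) φ.rep z') : NE E) : G)
      rw [map_one, gamProj_sc]
      rfl
    have hx1 : ((⟨_, hmem⟩ : Xf M E θ φ)).1.1 =
        gamInc (DM M) θ.rep (kap M E 1) * gamSc (DM M) θ.rep 1 := by
      rw [map_one, map_one, map_one, mul_one]
    have hx2 : ((⟨_, hmem⟩ : Xf M E θ φ)).1.2 =
        gamInc (DC M E) φ.rep 1 * gamSc (DC M E) φ.rep z' := by
      rw [map_one, one_mul]
    have h2 := h1 ⟨_, hmem⟩ 1 1 z' hx1 hx2 y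
    rw [hval, hval, map_mul, q2_apply θ φ _ 1 z' hx2] at h2
    rw [h2, e4]

theorem cntR_twist (θ : IrrX (DM M)) (φ : IrrX (DC M E)) (L : Xf M E θ φ →* ℂˣ)
    (hL : ∀ (x : Xf M E θ φ) (c : CE M E) (z : Sc M θ.V) (z' : Sc (CE M E) φ.V),
        x.1.1 = gamInc (DM M) θ.rep (kap M E c) * gamSc (DM M) θ.rep z →
        x.1.2 = gamInc (DC M E) φ.rep c * gamSc (DC M E) φ.rep z' →
        ((L x : ℂˣ) : ℂ) = ((z.1 : ℂˣ) : ℂ) / ((z'.1 : ℂˣ) : ℂ)) (s : ZMod p) :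
    Nat.card {χ : Irr (Xf M E θ φ) // P1 θ φ χ.1 ∧ (deg χ.1 : ZMod p) ^ 2 = s} =
      Nat.card {χ : Irr (Xf M E θ φ) // P2 θ φ χ.1 ∧ (deg χ.1 : ZMod p) ^ 2 = s} := by
  have hdeg : ∀ (l : Xf M E θ φ →* ℂˣ) (χ : Xf M E θ φ → ℂ),
      deg (fun x => ((l x : ℂˣ) : ℂ) * χ x) = deg χ := by
    intro l χ
    simp [deg]
  have hval : ∀ x, ((L⁻¹ x : ℂˣ) : ℂ) * ((L x : ℂˣ) : ℂ) = 1 := by
    intro x
    rw [← Units.val_mul, ← MonoidHom.mul_apply, inv_mul_cancel]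
    rfl
  apply Nat.card_congr
  exact
    { toFun := fun χ => ⟨⟨fun x => ((L x : ℂˣ) : ℂ) * χ.1.1 x, irr_linTwist L χ.1.2⟩, by
        refine ⟨?_, ?_⟩
        · intro x c z z' hx1 hx2 y
          simp only
          rw [χ.2.1 x c z z' hx1 hx2 y, map_mul, Units.val_mul, hL x c z z' hx1 hx2]
          have hz : ((z.1 : ℂˣ) : ℂ) ≠ 0 := Units.ne_zero _
          field_simp
        · rw [hdeg]; exact χ.2.2⟩
      invFun := fun χ => ⟨⟨fun x => ((L⁻¹ x : ℂˣ) : ℂ) * χ.1.1 x, irr_linTwist L⁻¹ χ.1.2⟩, by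
        refine ⟨?_, ?_⟩
        · intro x c z z' hx1 hx2 y
          simp only
          rw [χ.2.1 x c z z' hx1 hx2 y, map_mul, Units.val_mul]
          have hz : ((z.1 : ℂˣ) : ℂ) ≠ 0 := Units.ne_zero _
          have hz' : ((z'.1 : ℂˣ) : ℂ) ≠ 0 := Units.ne_zero _
          have h1 := hval x
          rw [hL x c z z' hx1 hx2] at h1
          have h2 : ((L⁻¹ x : ℂˣ) : ℂ) = ((z'.1 : ℂˣ) : ℂ) / ((z.1 : ℂˣ) : ℂ) := by
            field_simp at h1 ⊢
            linear_combination h1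
          rw [h2]
          field_simp
        · rw [hdeg]; exact χ.2.2⟩
      left_inv := fun χ => by
        apply Subtype.ext
        apply Subtype.ext
        ext x
        change ((L⁻¹ x : ℂˣ) : ℂ) * (((L x : ℂˣ) : ℂ) * χ.1.1 x) = χ.1.1 x
        rw [← mul_assoc, hval, one_mul]
      right_inv := fun χ => by
        apply Subtype.ext
        apply Subtype.ext
        ext x
        change ((L x : ℂˣ) : ℂ) * (((L⁻¹ x : ℂˣ) : ℂ) * χ.1.1 x) = χ.1.1 x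
        rw [← mul_assoc, mul_comm (((L x : ℂˣ) : ℂ)), hval, one_mul] }

end Pool.Agent.Helper24.MA
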