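import Pool.Agent.Helper24.MA.Asm.Data
import Pool.Agent.Helper24.MA.Glau.KSide
import Pool.Agent.Helper24.MA.Glau.Cong

/-!
# The correspondence (module MA-32)

Choose `O` with `exists_val`. `exists_mult`: the multiplicity `B (θ ∘ kap) φ` is a natural number (`B_char`-type lemma: dimension of a Hom space; or expansion of the restriction of a character;
see `B_cliff_nat` in INC for the argument). `exists_Lk`: `sum_sq_mod` with `act = (EB M E).subtype`, `κ = kap M E` (`E`-invariance of `θ` in the sense of `EInv` is the same as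
`θ.chi (x m) = θ.chi m` for `x` in `EB M E`; `EB M E` is a `p`-group by `Hyp.hB`, exponent `p`): the sum over the invariant `θ` of the squares is `1` mod `p`, so some multiplicity is not divisible by `p`. Apply
`kside` with `I = {θ // EInv M E θ}`, `J = IrrX (DC M E)`, `σ = sM`, `τ = sC`, `X` chosen by `exists_X`, `hd`: `sum_deg_sq` (`finrank` of `Fin n → k` is `n = finrank ℂ φ.V = deg φ.chi`), `h3`: `exists_Lk` and
`finrank_mult` (the residue field has characteristic `p`). `Lk θ φ` implies `0 < gr p (homE ..)` by `gr_pos` and `finrank_mult`. So `corr1` (existence: `exists_Lk`; uniqueness: first part of `kside`),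
`corr2` (existence: `θ.chi 1 = ∑ φ, mult θ φ * φ.chi 1` by `expand` evaluated at `1`, and `p` does not divide `θ.chi 1 = finrank θ.V` (`Fou.dim`, `red_n`); uniqueness: third part of `kside`).
`corr3`: by `corr1` all other invariant `θ'` have `p | mult θ' φ`, so `mult θ φ ^ 2 = 1` mod `p` by `sum_sq_mod`, and by `corr2`, `θ.chi 1 = mult θ φ * φ.chi 1` mod `p`.
`exists_X_gr`: with the chosen `X`, `0 < gr ≤ 1`.
-/

open MulAction Pool.Agent.Helper42.INC
open scoped Pointwise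

namespace Pool.Agent.Helper24.MA

variable {G : Type} [Group G] [Finite G] {M : Subgroup G} [M.Normal] {E : Subgroup G} {p : ℕ}
  [Fact p.Prime] {O : ValuationSubring ℂ}

theorem exists_mult (θ : IrrX (DM M)) (φ : IrrX (DC M E)) :
    ∃ m : ℕ, B (fun c => θ.chi (kap M E c)) φ.chi = m := by
  obtain ⟨n, hn⟩ := B_char (θ.rep.comp (kap M E)) φ.rep
  refine ⟨n, ?_⟩
  rw [← hn, IrrX.char_rep]
  congr 1
  funext c
  rw [← IrrX.char_rep]
  rfl

/-- the multiplicity -/
private noncomputable def corrMult (θ : IrrX (DM M)) (φ : IrrX (DC M E)) : ℕ :=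
  (exists_mult θ φ).choose

private theorem corrMult_spec (θ : IrrX (DM M)) (φ : IrrX (DC M E)) :
    B (fun c => θ.chi (kap M E c)) φ.chi = corrMult θ φ := (exists_mult θ φ).choose_spec

private theorem lk_iff (θ : IrrX (DM M)) (φ : IrrX (DC M E)) :
    Lk M E p θ φ ↔ ¬ p ∣ corrMult θ φ := by
  constructor
  · rintro ⟨m, hm, hp⟩
    rw [corrMult_spec] at hm
    have : corrMult θ φ = m := by exact_mod_cast hm
    rw [this]; exact hp
  · intro h
    exact ⟨_, corrMult_spec θ φ, h⟩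

private theorem einv_iff (θ : IrrX (DM M)) :
    EInv M E θ ↔ ∀ (x : EB M E) (m : M), θ.chi ((EB M E).subtype x m) = θ.chi m := by
  constructor
  · rintro h ⟨x, e, he, rfl⟩ m
    have h1 := congrArg (fun η : IrrX (DM M) => η.chi m) (h e⁻¹ (E.inv_mem he))
    have h2 : (e⁻¹ • θ).chi m = θ.chi m := h1
    rw [IrrX.smul_chi, inv_inv] at h2
    exact h2
  · intro h e he
    apply IrrX.ext'
    funext m
    rw [IrrX.smul_chi]
    exact h ⟨(DM M).α e⁻¹, e⁻¹, E.inv_mem he, rfl⟩ m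

private theorem corr_pgroup (h : Hyp M E p) : IsPGroup p (EB M E) := by
  intro x
  exact ⟨1, by rw [pow_one]; exact h.hB.pow x⟩

private theorem corr_sum (h : Hyp M E p) (φ : IrrX (DC M E))
    [Fintype {θ : IrrX (DM M) // EInv M E θ}] :
    ∑ θ : {θ : IrrX (DM M) // EInv M E θ}, corrMult θ.1 φ ^ 2 ≡ 1 [MOD p] := by
  classical
  let e : {θ : IrrX (DM M) // EInv M E θ} ≃
      {θ : Irr M // ∀ (x : EB M E) (m : M), θ.1 ((EB M E).subtype x m) = θ.1 m} :=
    { toFun := fun θ => ⟨⟨θ.1.chi, θ.1.mem⟩, (einv_iff θ.1).1 θ.2⟩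
      invFun := fun θ => ⟨⟨θ.1.1, θ.1.2⟩, (einv_iff _).2 θ.2⟩
      left_inv := fun _ => rfl
      right_inv := fun _ => rfl }
  haveI : Fintype {θ : Irr M // ∀ (x : EB M E) (m : M), θ.1 ((EB M E).subtype x m) = θ.1 m} :=
    Fintype.ofEquiv _ e
  have key := sum_sq_mod p (corr_pgroup h) (EB M E).subtype (kap M E) kap_injective
    (kap_fixed h) (exists_kap h) (card_CE h) φ.mem
    (fun θ : Irr M => corrMult (⟨θ.1, θ.2⟩ : IrrX (DM M)) φ)
    (fun θ => corrMult_spec (⟨θ.1, θ.2⟩ : IrrX (DM M)) φ)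
  have h2 : ∑ θ : {θ : IrrX (DM M) // EInv M E θ}, corrMult θ.1 φ ^ 2 =
      ∑ θ : {θ : Irr M // ∀ (x : EB M E) (m : M), θ.1 ((EB M E).subtype x m) = θ.1 m},
        corrMult (⟨θ.1.1, θ.1.2⟩ : IrrX (DM M)) φ ^ 2 :=
    Fintype.sum_equiv e _ _ (fun _ => rfl)
  rw [h2]
  exact key

private theorem exists_Lk (h : Hyp M E p) (φ : IrrX (DC M E)) :
    ∃ θ : {θ : IrrX (DM M) // EInv M E θ}, Lk M E p θ.1 φ := by
  classical
  have := Fintype.ofFinite {θ : IrrX (DM M) // EInv M E θ}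
  by_contra hcon
  push Not at hcon
  have h1 := corr_sum h φ
  have h2 : p ∣ ∑ θ : {θ : IrrX (DM M) // EInv M E θ}, corrMult θ.1 φ ^ 2 := by
    apply Finset.dvd_sum
    intro θ _
    have h3 := hcon θ
    rw [lk_iff, not_not] at h3
    exact dvd_pow h3 (by norm_num)
  have hp : p.Prime := Fact.out
  have h4 : 0 ≡ 1 [MOD p] := ((Nat.modEq_zero_iff_dvd.2 h2).symm).trans h1
  have h5 := (Nat.modEq_iff_dvd' (Nat.zero_le 1)).1 h4
  rw [Nat.sub_zero] at h5
  exact hp.one_lt.ne' (Nat.dvd_one.1 h5)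

private theorem card_M_ne (hO : (p : O) ∈ IsLocalRing.maximalIdeal O) {n : ℕ} (hn : ¬ p ∣ n) :
    (n : IsLocalRing.ResidueField O) ≠ 0 := by
  haveI := charP_res O hO
  intro h0
  exact hn ((CharP.cast_eq_zero_iff _ p _).1 h0)

private theorem finrank_eq_deg (φ : IrrX (DC M E)) :
    Module.finrank ℂ φ.V = deg φ.chi := by
  have h1 := Representation.char_one φ.rep
  rw [IrrX.char_rep] at h1
  exact (deg_eq h1).symm

private theorem core (hO : (p : O) ∈ IsLocalRing.maximalIdeal O) (h : Hyp M E p)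
    [Fintype (EB M E)]
    (X : ∀ θ : {θ : IrrX (DM M) // EInv M E θ}, Representation (IsLocalRing.ResidueField O)
      (EB M E) (Fin (RM M O θ.1).n → IsLocalRing.ResidueField O))
    (hX : ∀ θ (x : EB M E) (m : M), X θ x ∘ₗ sM M O θ.1 m =
        sM M O θ.1 ((EB M E).subtype x m) ∘ₗ X θ x) :
    (∀ θ φ, Lk M E p θ.1 φ ↔ 0 < gr p (homE ((sM M O θ.1).comp (kap M E)) (sC M E O φ) (X θ)
        (comm_kappa (hX θ) (kap M E) (kap_fixed h)))) ∧
    (∀ φ, ∃! θ, 0 < gr p (homE ((sM M O θ.1).comp (kap M E)) (sC M E O φ) (X θ)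
        (comm_kappa (hX θ) (kap M E) (kap_fixed h)))) ∧
    (∀ θ φ, gr p (homE ((sM M O θ.1).comp (kap M E)) (sC M E O φ) (X θ)
        (comm_kappa (hX θ) (kap M E) (kap_fixed h))) ≤ 1) ∧
    ∀ θ φ φ', 0 < gr p (homE ((sM M O θ.1).comp (kap M E)) (sC M E O φ) (X θ)
        (comm_kappa (hX θ) (kap M E) (kap_fixed h))) →
      0 < gr p (homE ((sM M O θ.1).comp (kap M E)) (sC M E O φ') (X θ)
        (comm_kappa (hX θ) (kap M E) (kap_fixed h))) → φ = φ' := by
  classical
  haveI := charP_res O hO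
  have := Fintype.ofFinite M
  have := Fintype.ofFinite (CE M E)
  have := Fintype.ofFinite {θ : IrrX (DM M) // EInv M E θ}
  have := Fintype.ofFinite (IrrX (DC M E))
  have := Fintype.ofFinite (Irr (CE M E))
  have hnd : ∀ (θ : IrrX (DM M)) (φ : IrrX (DC M E)), Lk M E p θ φ →
      ¬ p ∣ Module.finrank (IsLocalRing.ResidueField O)
        (HomC ((sM M O θ).comp (kap M E)) (sC M E O φ)) := by
    intro θ φ hL hd
    have h1 := finrank_mult hO h θ φ _ (corrMult_spec θ φ)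
    rw [(CharP.cast_eq_zero_iff _ p _).2 hd] at h1
    exact (lk_iff θ φ).1 hL ((CharP.cast_eq_zero_iff (IsLocalRing.ResidueField O) p _).1 h1.symm)
  have key := kside p (k := IsLocalRing.ResidueField O) (M := M) (C := CE M E) (E := EB M E)
    (I := {θ : IrrX (DM M) // EInv M E θ}) (J := IrrX (DC M E)) h.hB
    (by rw [← Nat.card_eq_fintype_card]; exact card_M_ne hO h.hM)
    (by rw [← Nat.card_eq_fintype_card]; exact card_M_ne hO (card_CE h))
    (fun θ => sM M O θ.1) (fou_M hO h) (EB M E).subtype X hX (kap M E) kap_injective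
    (kap_fixed h) (exists_kap h) (fun φ => sC M E O φ) (fou_C hO h)
    (by
      have h1 : ∑ φ : IrrX (DC M E), Module.finrank (IsLocalRing.ResidueField O)
          (Fin (RC M E O φ).n → IsLocalRing.ResidueField O) ^ 2 =
          ∑ χ : Irr (CE M E), (deg χ.1) ^ 2 := by
        apply Fintype.sum_equiv (IrrX.equiv (DC M E))
        intro φ
        rw [Module.finrank_fin_fun, red_n, finrank_eq_deg]
        rfl
      rw [h1, sum_deg_sq, Nat.card_eq_fintype_card])
    (by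
      intro φ
      obtain ⟨θ, hθ⟩ := exists_Lk h φ
      exact ⟨θ, hnd θ.1 φ hθ⟩)
  obtain ⟨k1, k2, k3⟩ := key
  refine ⟨?_, k1, k2, k3⟩
  have hpos : ∀ θ φ, Lk M E p θ.1 φ → 0 < gr p (homE ((sM M O θ.1).comp (kap M E))
      (sC M E O φ) (X θ) (comm_kappa (hX θ) (kap M E) (kap_fixed h))) := by
    intro θ φ hL
    apply gr_pos p h.hB
    exact hnd θ.1 φ hL
  intro θ φ
  constructor
  · exact hpos θ φ
  · intro hg
    obtain ⟨θ', hθ'⟩ := exists_Lk h φ
    have h1 := (k1 φ).unique hg (hpos θ' φ hθ')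
    rw [h1]
    exact hθ'

theorem corr1 (h : Hyp M E p) (φ : IrrX (DC M E)) :
    ∃! θ : {θ : IrrX (DM M) // EInv M E θ}, Lk M E p θ.1 φ := by
  obtain ⟨O, hO⟩ := exists_val p
  have := Fintype.ofFinite (EB M E)
  choose X hX using fun θ : {θ : IrrX (DM M) // EInv M E θ} => exists_X hO h θ.1 θ.2
  obtain ⟨c0, c1, c2, c3⟩ := core hO h X hX
  obtain ⟨θ, h1, h2⟩ := c1 φ
  refine ⟨θ, (c0 θ φ).2 h1, fun θ' hθ' => h2 θ' ((c0 θ' φ).1 hθ')⟩

private theorem not_dvd_finrank (h : Hyp M E p) (θ : IrrX (DM M)) (hθ : EInv M E θ) :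
    ¬ p ∣ Module.finrank ℂ θ.V := by
  obtain ⟨O, hO⟩ := exists_val p
  haveI := charP_res O hO
  have := Fintype.ofFinite M
  have h1 := (fou_M hO h).dim ⟨θ, hθ⟩
  rw [Module.finrank_fin_fun, red_n] at h1
  intro hd
  exact h1 ((CharP.cast_eq_zero_iff _ p _).2 hd)

private theorem deg_sum [Fintype (IrrX (DC M E))] (θ : IrrX (DM M)) :
    Module.finrank ℂ θ.V = ∑ φ : IrrX (DC M E), corrMult θ φ * Module.finrank ℂ φ.V := by
  classical
  have := Fintype.ofFinite (Irr (CE M E))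
  have hcl : IsClass (fun c => θ.chi (kap M E c)) := by
    intro a b
    have := Irr.isClass θ.mem (kap M E a) (kap M E b)
    change θ.chi (kap M E (a * b * a⁻¹)) = θ.chi (kap M E b)
    rw [map_mul, map_mul, map_inv]
    exact this
  have h1 := congrFun (expand (fun c => θ.chi (kap M E c)) hcl) 1
  rw [map_one, Finset.sum_apply] at h1
  have h2 : θ.chi 1 = (Module.finrank ℂ θ.V : ℂ) := by
    rw [← IrrX.char_rep]; exact Representation.char_one θ.rep
  have h3 : ∀ φ : IrrX (DC M E), φ.chi 1 = (Module.finrank ℂ φ.V : ℂ) := by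
    intro φ
    rw [← IrrX.char_rep]; exact Representation.char_one φ.rep
  have h4 : ∑ χ : Irr (CE M E), (B (fun c => θ.chi (kap M E c)) χ.1 • χ.1) 1 =
      ∑ φ : IrrX (DC M E), (corrMult θ φ : ℂ) * (Module.finrank ℂ φ.V : ℂ) := by
    symm
    apply Fintype.sum_equiv (IrrX.equiv (DC M E))
    intro φ
    rw [← corrMult_spec, ← h3]
    rfl
  rw [h2, h4] at h1
  exact_mod_cast h1

theorem corr2 (h : Hyp M E p) (θ : IrrX (DM M)) (hθ : EInv M E θ) :
    ∃! φ : IrrX (DC M E), Lk M E p θ φ := by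
  classical
  have := Fintype.ofFinite (IrrX (DC M E))
  obtain ⟨O, hO⟩ := exists_val p
  have := Fintype.ofFinite (EB M E)
  choose X hX using fun θ : {θ : IrrX (DM M) // EInv M E θ} => exists_X hO h θ.1 θ.2
  obtain ⟨c0, c1, c2, c3⟩ := core hO h X hX
  have hex : ∃ φ : IrrX (DC M E), Lk M E p θ φ := by
    by_contra hcon
    push Not at hcon
    apply not_dvd_finrank h θ hθ
    rw [deg_sum (E := E) θ]
    apply Finset.dvd_sum
    intro φ _
    have h3 := hcon φ
    rw [lk_iff, not_not] at h3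
    exact Dvd.dvd.mul_right h3 _
  obtain ⟨φ, hφ⟩ := hex
  exact ⟨φ, hφ, fun φ' hφ' => c3 ⟨θ, hθ⟩ φ' φ ((c0 ⟨θ, hθ⟩ φ').1 hφ') ((c0 ⟨θ, hθ⟩ φ).1 hφ)⟩

theorem corr3 (h : Hyp M E p) (θ : IrrX (DM M)) (hθ : EInv M E θ) (φ : IrrX (DC M E))
    (hL : Lk M E p θ φ) : (Module.finrank ℂ θ.V : ZMod p) ^ 2 = (Module.finrank ℂ φ.V : ZMod p) ^ 2 ∧
      (Module.finrank ℂ θ.V : ZMod p) ≠ 0 := by
  classical
  have := Fintype.ofFinite (IrrX (DC M E))
  have := Fintype.ofFinite {θ : IrrX (DM M) // EInv M E θ}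
  have hne : (Module.finrank ℂ θ.V : ZMod p) ≠ 0 := by
    intro h0
    exact not_dvd_finrank h θ hθ ((ZMod.natCast_eq_zero_iff _ _).1 h0)
  refine ⟨?_, hne⟩
  -- the square of the multiplicity is one
  have h1 : ((corrMult θ φ : ℕ) : ZMod p) ^ 2 = 1 := by
    have h2 := corr_sum h φ
    rw [← ZMod.natCast_eq_natCast_iff] at h2
    push_cast at h2
    rw [Finset.sum_eq_single (⟨θ, hθ⟩ : {θ : IrrX (DM M) // EInv M E θ})] at h2
    · exact h2
    · intro θ' _ hne'
      have h3 : ¬ Lk M E p θ'.1 φ := fun h4 => hne' ((corr1 h φ).unique h4 hL)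
      rw [lk_iff, not_not] at h3
      rw [(ZMod.natCast_eq_zero_iff _ _).2 h3]
      norm_num
    · intro h3; exact absurd (Finset.mem_univ _) h3
  have h2 : (Module.finrank ℂ θ.V : ZMod p) = (corrMult θ φ : ZMod p) *
      (Module.finrank ℂ φ.V : ZMod p) := by
    have h3 := congrArg (Nat.cast : ℕ → ZMod p) (deg_sum (E := E) θ)
    push_cast at h3
    rw [Finset.sum_eq_single φ] at h3
    · exact h3
    · intro φ' _ hne'
      have h4 : ¬ Lk M E p θ φ' := fun h5 => hne' ((corr2 h θ hθ).unique h5 hL)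
      rw [lk_iff, not_not] at h4
      rw [(ZMod.natCast_eq_zero_iff _ _).2 h4, zero_mul]
    · intro h4; exact absurd (Finset.mem_univ _) h4
  rw [h2, mul_pow, h1, one_mul]

theorem exists_X_gr (hO : (p : O) ∈ IsLocalRing.maximalIdeal O) (h : Hyp M E p)
    (θ : IrrX (DM M)) (hθ : EInv M E θ) (φ : IrrX (DC M E)) (hL : Lk M E p θ φ)
    [Fintype (EB M E)] :
    ∃ (X : Representation (IsLocalRing.ResidueField O) (EB M E)
      (Fin (RM M O θ).n → IsLocalRing.ResidueField O))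
      (hX : ∀ (x : EB M E) (m : M), X x ∘ₗ sM M O θ m =
        sM M O θ ((EB M E).subtype x m) ∘ₗ X x),
      gr p (homE ((sM M O θ).comp (kap M E)) (sC M E O φ) X
        (comm_kappa hX (kap M E) (kap_fixed h))) = 1 := by
  choose X hX using fun θ : {θ : IrrX (DM M) // EInv M E θ} => exists_X hO h θ.1 θ.2
  obtain ⟨c0, c1, c2, c3⟩ := core hO h X hX
  refine ⟨X ⟨θ, hθ⟩, hX ⟨θ, hθ⟩, ?_⟩
  exact le_antisymm (c2 ⟨θ, hθ⟩ φ) ((c0 ⟨θ, hθ⟩ φ).1 hL)

end Pool.Agent.Helper24.MA
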