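import Pool.Agent.Helper24.MA.Asm.Grp
import Pool.Agent.Helper24.MA.Val.Lattice
import Pool.Agent.Helper24.MA.Val.FouRed
import Pool.Agent.Helper24.MA.Four.Ext
import Pool.Agent.Helper24.MA.Four.Schur

/-!
# The reductions modulo p of the representations of `M` and of `M ∩ N_G(E)` (module MA-31)

`RM O θ`, `RC O φ` are chosen `O`-forms of the tautological representations of the groups of pairs `Gam`, `sM O θ`, `sC O φ` the reductions of their restrictions to `M`,
`M ∩ N_G(E)`. `fou_M`, `fou_C`: `fou_red`; the restriction of `gamRep` along `gamInc` is `θ.rep` (`gamRep_inc`), irreducible with character `θ.chi` (`IrrX.char_rep`), and distinct `θ` have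
distinct characters (`IrrX.ext'`). `exists_X`: `exists_ext` with `act = (EB M E).subtype`, `k` = residue field (`perf_res`, `charP_res`); `hs` is `fou_scalar` (for the one element family or for `fou_M`);
`hi`: `x = α e` with `e` in `E`, `e • θ = θ`, so there is `γ` in `Gam` with `gamProj γ = e` (`range_gamProj`); `Y = (RM O θ).bar γ`, invertible with inverse `(RM O θ).bar γ⁻¹`, and
`γ * gamInc m = gamInc (α e m) * γ` (`gam_conj`). The space `Fin n → k` is nontrivial since `n ≠ 0` (`Fou.dim`).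
`finrank_mult`: `finrank_HomC` (`|C|` is not zero in `k`), `red_trace`: `trace (sM θ (kap c)) = residue (θ.chi (kap c))`, `trace (sC φ c⁻¹) = residue (φ.chi c⁻¹)`, and
`B_eq`: `m = |C|⁻¹ ∑ c, θ.chi (kap c) * φ.chi c⁻¹`, so `|C| * m = ∑ ...` in `O`, apply `residue`.
`sM_conj`: for `γ` in `Gam`: `bar γ ∘ sM m = sM (α (gamProj γ) m) ∘ bar γ`, from `gam_conj`.
-/

open MulAction Pool.Agent.Helper42.INC
open scoped Pointwise

namespace Pool.Agent.Helper24.MA

section

variable {G : Type} [Group G] [Finite G] (M : Subgroup G) [M.Normal] (E : Subgroup G)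
  (O : ValuationSubring ℂ)

/-- a chosen `O`-form of the tautological representation of the group of pairs of `θ` -/
noncomputable def RM (θ : IrrX (DM M)) : Red O (gamRep (DM M) θ.rep) := (exists_red O _).some

/-- a chosen `O`-form of the tautological representation of the group of pairs of `φ` -/
noncomputable def RC (φ : IrrX (DC M E)) : Red O (gamRep (DC M E) φ.rep) :=
  (exists_red O _).some

/-- the reduction of `θ` -/
noncomputable def sM (θ : IrrX (DM M)) : Representation (IsLocalRing.ResidueField O) M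
    (Fin (RM M O θ).n → IsLocalRing.ResidueField O) :=
  ((RM M O θ).comp (gamInc (DM M) θ.rep)).bar

/-- the reduction of `φ` -/
noncomputable def sC (φ : IrrX (DC M E)) : Representation (IsLocalRing.ResidueField O) (CE M E)
    (Fin (RC M E O φ).n → IsLocalRing.ResidueField O) :=
  ((RC M E O φ).comp (gamInc (DC M E) φ.rep)).bar

end

variable {G : Type} [Group G] [Finite G] {M : Subgroup G} [M.Normal] {E : Subgroup G} {p : ℕ}
  [Fact p.Prime] {O : ValuationSubring ℂ}

private theorem bar_comp {X V : Type} [Group X] [AddCommGroup V] [Module ℂ V]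
    {ρ : Representation ℂ X V} (R : Red O ρ) (x y : X) : R.bar x ∘ₗ R.bar y = R.bar (x * y) := by
  rw [map_mul]
  rfl

private theorem rep_inc {M₁ G₁ : Type} [Group M₁] [Group G₁] [Finite M₁] [Finite G₁] (D : NP M₁ G₁)
    (θ : IrrX D) : (gamRep D θ.rep).comp (gamInc D θ.rep) = θ.rep := by
  apply MonoidHom.ext
  intro m
  rfl

private theorem irr_inc {M₁ G₁ : Type} [Group M₁] [Group G₁] [Finite M₁] [Finite G₁] (D : NP M₁ G₁)
    (θ : IrrX D) : Representation.IsIrreducible
      ((gamRep D θ.rep).comp (gamInc D θ.rep) : Representation ℂ M₁ θ.V) := by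
  rw [rep_inc]; infer_instance

private theorem char_inc {M₁ G₁ : Type} [Group M₁] [Group G₁] [Finite M₁] [Finite G₁] (D : NP M₁ G₁)
    (θ : IrrX D) : Representation.character
      ((gamRep D θ.rep).comp (gamInc D θ.rep) : Representation ℂ M₁ θ.V) = θ.chi := by
  rw [rep_inc, IrrX.char_rep]

private theorem sM_eq (θ : IrrX (DM M)) (m : M) :
    sM M O θ m = (RM M O θ).bar (gamInc (DM M) θ.rep m) := rfl

private theorem sC_eq (φ : IrrX (DC M E)) (c : CE M E) :
    sC M E O φ c = (RC M E O φ).bar (gamInc (DC M E) φ.rep c) := rfl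

private theorem gam_conj' {M₁ G₁ : Type} [Group M₁] [Group G₁] [Finite M₁] [Finite G₁]
    (D : NP M₁ G₁) (θ : IrrX D) (γ : Gam D θ.rep) (m : M₁) :
    γ * gamInc D θ.rep m = gamInc D θ.rep (D.α (gamProj D θ.rep γ) m) * γ := by
  rw [← gam_conj]
  group

theorem sM_conj (θ : IrrX (DM M)) (γ : Gam (DM M) θ.rep) (m : M) :
    (RM M O θ).bar γ ∘ₗ sM M O θ m =
      sM M O θ ((DM M).α (gamProj (DM M) θ.rep γ) m) ∘ₗ (RM M O θ).bar γ :=
  (bar_comp (RM M O θ) _ _).trans ((congrArg (RM M O θ).bar (gam_conj' (DM M) θ γ m)).trans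
    (bar_comp (RM M O θ) _ _).symm)

theorem sC_conj (φ : IrrX (DC M E)) (γ : Gam (DC M E) φ.rep) (c : CE M E) :
    (RC M E O φ).bar γ ∘ₗ sC M E O φ c =
      sC M E O φ ((DC M E).α (gamProj (DC M E) φ.rep γ) c) ∘ₗ (RC M E O φ).bar γ :=
  (bar_comp (RC M E O φ) _ _).trans ((congrArg (RC M E O φ).bar (gam_conj' (DC M E) φ γ c)).trans
    (bar_comp (RC M E O φ) _ _).symm)

theorem fou_M [Fintype M] (hO : (p : O) ∈ IsLocalRing.maximalIdeal O) (h : Hyp M E p) :
    Fou (fun θ : {θ : IrrX (DM M) // EInv M E θ} => sM M O θ.1) := by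
  have hM : ¬ p ∣ Fintype.card M := by
    rw [← Nat.card_eq_fintype_card]; exact h.hM
  have hF := fou_red hO hM
    (fun θ : {θ : IrrX (DM M) // EInv M E θ} =>
      (gamRep (DM M) θ.1.rep).comp (gamInc (DM M) θ.1.rep))
    (fun θ => irr_inc (DM M) θ.1)
    (fun θ θ' hne hc => hne (Subtype.ext (IrrX.ext'
      ((char_inc (DM M) θ.1).symm.trans (hc.trans (char_inc (DM M) θ'.1))))))
    (fun θ => (RM M O θ.1).comp (gamInc (DM M) θ.1.rep))
  exact hF

theorem fou_C [Fintype (CE M E)] (hO : (p : O) ∈ IsLocalRing.maximalIdeal O) (h : Hyp M E p) :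
    Fou (fun φ : IrrX (DC M E) => sC M E O φ) := by
  have hM : ¬ p ∣ Fintype.card (CE M E) := by
    rw [← Nat.card_eq_fintype_card]; exact card_CE h
  have hF := fou_red hO hM
    (fun φ : IrrX (DC M E) => (gamRep (DC M E) φ.rep).comp (gamInc (DC M E) φ.rep))
    (fun φ => irr_inc (DC M E) φ)
    (fun φ φ' hne hc => hne (IrrX.ext'
      ((char_inc (DC M E) φ).symm.trans (hc.trans (char_inc (DC M E) φ')))))
    (fun φ => (RC M E O φ).comp (gamInc (DC M E) φ.rep))
  exact hF

private theorem card_ne (hO : (p : O) ∈ IsLocalRing.maximalIdeal O) (n : ℕ) (hn : ¬ p ∣ n) :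
    (n : IsLocalRing.ResidueField O) ≠ 0 := by
  have h1 := (isUnit_natCast O hO _ hn).map (IsLocalRing.residue O)
  rw [map_natCast] at h1
  exact h1.ne_zero

theorem exists_X (hO : (p : O) ∈ IsLocalRing.maximalIdeal O) (h : Hyp M E p) (θ : IrrX (DM M))
    (hθ : EInv M E θ) : ∃ X : Representation (IsLocalRing.ResidueField O) (EB M E)
      (Fin (RM M O θ).n → IsLocalRing.ResidueField O),
      ∀ (x : EB M E) (m : M), X x ∘ₗ sM M O θ m = sM M O θ ((x : MulAut M) m) ∘ₗ X x := by
  have := Fintype.ofFinite M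
  have hchar : CharP (IsLocalRing.ResidueField O) p := charP_res O hO
  have hFou := fou_M hO h
  have hM : ((Fintype.card M : ℕ) : IsLocalRing.ResidueField O) ≠ 0 :=
    card_ne hO _ (by rw [← Nat.card_eq_fintype_card]; exact h.hM)
  have hn : (RM M O θ).n ≠ 0 := by
    intro h0
    have h1 := hFou.dim ⟨θ, hθ⟩
    apply h1
    change ((Module.finrank (IsLocalRing.ResidueField O)
      (Fin (RM M O θ).n → IsLocalRing.ResidueField O) : ℕ) : IsLocalRing.ResidueField O) = 0
    rw [Module.finrank_fin_fun, h0, Nat.cast_zero]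
  have hne : Nonempty (Fin (RM M O θ).n) := ⟨⟨0, Nat.pos_of_ne_zero hn⟩⟩
  have hnt : Nontrivial (Fin (RM M O θ).n → IsLocalRing.ResidueField O) := inferInstance
  refine exists_ext h.hB (perf_res O p) (EB M E).subtype (sM M O θ) ?_ ?_
  · intro f hf
    exact fou_scalar hFou hM ⟨θ, hθ⟩ f hf
  · rintro ⟨x, e, he, rfl⟩
    have h1 : e ∈ MulAction.stabilizer G θ := hθ e he
    rw [← range_gamProj] at h1
    obtain ⟨γ, hγ⟩ := h1
    refine ⟨LinearEquiv.ofLinearMap ((RM M O θ).bar γ) ((RM M O θ).bar γ⁻¹) ?_ ?_, fun m => ?_⟩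
    · rw [bar_comp, mul_inv_cancel, map_one]; rfl
    · rw [bar_comp, inv_mul_cancel, map_one]; rfl
    · have h2 := sM_conj (O := O) θ γ m
      rw [hγ] at h2
      exact h2

theorem finrank_mult (hO : (p : O) ∈ IsLocalRing.maximalIdeal O) (h : Hyp M E p)
    (θ : IrrX (DM M)) (φ : IrrX (DC M E)) (m : ℕ)
    (hm : B (fun c => θ.chi (kap M E c)) φ.chi = m) :
    (Module.finrank (IsLocalRing.ResidueField O)
      (HomC ((sM M O θ).comp (kap M E)) (sC M E O φ)) : IsLocalRing.ResidueField O) = m := by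
  have := Fintype.ofFinite (CE M E)
  have hp : ¬ p ∣ Fintype.card (CE M E) := by
    rw [← Nat.card_eq_fintype_card]; exact card_CE h
  have hC : ((Fintype.card (CE M E) : ℕ) : IsLocalRing.ResidueField O) ≠ 0 := card_ne hO _ hp
  rw [finrank_HomC _ _ hC]
  have hA := fun c : CE M E => red_trace (RM M O θ) (gamInc (DM M) θ.rep (kap M E c))
  have hB := fun c : CE M E => red_trace (RC M E O φ) (gamInc (DC M E) φ.rep c⁻¹)
  choose a ha using hA
  choose b hb using hB
  have hca : ∀ c : CE M E, (gamRep (DM M) θ.rep).character (gamInc (DM M) θ.rep (kap M E c)) =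
      θ.chi (kap M E c) := by
    intro c
    rw [← IrrX.char_rep]
    rfl
  have hcb : ∀ c : CE M E, (gamRep (DC M E) φ.rep).character (gamInc (DC M E) φ.rep c⁻¹) =
      φ.chi c⁻¹ := by
    intro c
    rw [← IrrX.char_rep]
    rfl
  have hcard : ((Fintype.card (CE M E) : ℕ) : ℂ) ≠ 0 := by
    exact_mod_cast Fintype.card_ne_zero
  have hsum : (∑ c, (⟨_, a c⟩ : O) * (⟨_, b c⟩ : O)) = ((Fintype.card (CE M E) : ℕ) : O) * (m : O) := by
    apply Subtype.ext
    rw [B_eq, Nat.card_eq_fintype_card] at hm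
    have h1 : ∑ c : CE M E, θ.chi (kap M E c) * φ.chi c⁻¹ =
        ((Fintype.card (CE M E) : ℕ) : ℂ) * m := by
      rw [← hm, mul_inv_cancel_left₀ hcard]
    have h2 : (((∑ c, (⟨_, a c⟩ : O) * (⟨_, b c⟩ : O)) : O) : ℂ) =
        ∑ c : CE M E, θ.chi (kap M E c) * φ.chi c⁻¹ := by
      rw [← ValuationSubring.subtype_apply, map_sum]
      refine Finset.sum_congr rfl fun c _ => ?_
      rw [map_mul, ValuationSubring.subtype_apply, ValuationSubring.subtype_apply]
      exact congrArg₂ (· * ·) (hca c) (hcb c)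
    rw [h2, h1]
    push_cast
    rfl
  have hfin : ∑ c : CE M E, LinearMap.trace (IsLocalRing.ResidueField O)
      (Fin (RM M O θ).n → IsLocalRing.ResidueField O) (((sM M O θ).comp (kap M E)) c) *
      LinearMap.trace (IsLocalRing.ResidueField O)
      (Fin (RC M E O φ).n → IsLocalRing.ResidueField O) (sC M E O φ c⁻¹) =
      ((Fintype.card (CE M E) : ℕ) : IsLocalRing.ResidueField O) * m := by
    have h3 := congrArg (IsLocalRing.residue O) hsum
    rw [map_sum, map_mul, map_natCast, map_natCast] at h3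
    rw [← h3]
    refine Finset.sum_congr rfl fun c _ => ?_
    rw [map_mul]
    exact congrArg₂ (· * ·) (ha c) (hb c)
  rw [hfin, inv_mul_cancel_left₀ hC]

end Pool.Agent.Helper24.MA
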