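import Pool.Agent.Helper42.INC.Step
import Pool.Agent.Helper24.MA.Defs2

/-!
# Setting of the reduction step: a normal subgroup `M` and a subgroup `E` of `G`
-/

open MulAction Pool.Agent.Helper42.INC
open scoped Pointwise

namespace Pool.Agent.Helper24.MA

section defs

variable {G : Type} [Group G] (M : Subgroup G) [M.Normal] (E : Subgroup G)

/-- the normalizer of `E` -/
abbrev NE : Subgroup G := Subgroup.normalizer (E : Set G)

/-- the intersection of `M` with the normalizer of `E`, as a subgroup of the normalizer -/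
abbrev CE : Subgroup (NE E) := M.subgroupOf (NE E)

/-- `M` as a normal pair in `G` -/
abbrev DM : NP M G := NP.ofNormal M

/-- `M ∩ N_G(E)` as a normal pair in `N_G(E)` -/
abbrev DC : NP (CE M E) (NE E) := NP.ofNormal (CE M E)

/-- the inclusion of `M ∩ N_G(E)` into `M` -/
def kap : CE M E →* M where
  toFun c := ⟨c.1.1, c.2⟩
  map_one' := rfl
  map_mul' _ _ := rfl

/-- the image of `E` in the automorphism group of `M` -/
abbrev EB : Subgroup (MulAut M) := E.map (DM M).α

lemma alpha_mem_normalizer (g : NE E) :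
    (DM M).α g ∈ Subgroup.normalizer ((EB M E : Subgroup (MulAut M)) : Set (MulAut M)) := by
  refine (Subgroup.mem_normalizer_iff (H := EB M E)).2 (fun x => ?_)
  constructor
  · rintro ⟨e, he, rfl⟩
    refine ⟨g * e * (g : G)⁻¹, (Subgroup.mem_normalizer_iff.1 g.2 e).1 he, ?_⟩
    rw [map_mul, map_mul, map_inv]
  · rintro ⟨e, he, h⟩
    refine ⟨(g : G)⁻¹ * e * g, (Subgroup.mem_normalizer_iff''.1 g.2 e).1 he, ?_⟩
    rw [map_mul, map_mul, map_inv, h]
    group

/-- the normalizer of `E` acts on the image of `E` by conjugation -/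
noncomputable def conjEB : NE E →* MulAut (EB M E) :=
  (EB M E).normalizerMonoidHom.comp
    (((DM M).α.comp (NE E).subtype).codRestrict _ (alpha_mem_normalizer M E))

lemma conjEB_coe (g : NE E) (x : EB M E) :
    ((conjEB M E g x : EB M E) : MulAut M) = (DM M).α g * x * ((DM M).α g)⁻¹ := rfl

end defs

section pair

variable {G : Type} [Group G] [Finite G] (M : Subgroup G) [M.Normal] (E : Subgroup G)

/-- the fibre product of the two groups of pairs over `N_G(E)` -/
noncomputable def Xf (θ : IrrX (DM M)) (φ : IrrX (DC M E)) :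
    Subgroup (Gam (DM M) θ.rep × Gam (DC M E) φ.rep) :=
  MonoidHom.eqLocus ((gamProj (DM M) θ.rep).comp (MonoidHom.fst _ _))
    ((NE E).subtype.comp ((gamProj (DC M E) φ.rep).comp (MonoidHom.snd _ _)))

/-- `p` does not divide the multiplicity of `φ` in the restriction of `θ` -/
def Lk (p : ℕ) (θ : IrrX (DM M)) (φ : IrrX (DC M E)) : Prop :=
  ∃ m : ℕ, B (fun c => θ.chi (kap M E c)) φ.chi = m ∧ ¬ p ∣ m

/-- the hypotheses of the reduction step -/
structure Hyp (p : ℕ) : Prop where
  hM : ¬ p ∣ Nat.card M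
  hE : IsPGroup p E
  hB : ElAb p (EB M E)
  hG : M ⊔ NE E = ⊤

/-- `θ` is invariant under `E` -/
def EInv (θ : IrrX (DM M)) : Prop := ∀ e ∈ E, e • θ = θ

end pair

end Pool.Agent.Helper24.MA
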