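import Pool.Agent.Helper24.MA.Asm.Corr

/-!
# Equivariance of the correspondence (module MA-36)

`Lk_smul`: for `n` in `N_G(E)`, `B ((n • θ) ∘ kap) (n • φ) = B (θ ∘ kap) φ` (substitute `c ↦ n⁻¹ c n`; `α n⁻¹ (kap c) = kap (n⁻¹ c n)`). `einv_smul`: `n` normalizes `E`. So by uniqueness in `corr1`, `corr2`:
`lk_stab`. `index_eq`: `G = M N_G(E)` and `M` fixes `θ` (`smul_M`), so the stabilizer `T` of `θ` contains `M`, `T = M (T ∩ N_G(E))`, and `T ∩ N_G(E)` is the stabilizer of `φ` by `lk_stab`;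
the map `N_G(E)/(T ∩ N_G(E)) → G/T` is a bijection (equivalently: the orbit of `θ` under `G` is the orbit under `N_G(E)`, and the orbits have cardinality the index of the stabilizer).
-/

open MulAction Pool.Agent.Helper42.INC
open scoped Pointwise

namespace Pool.Agent.Helper24.MA

variable {G : Type} [Group G] [Finite G] {M : Subgroup G} [M.Normal] {E : Subgroup G} {p : ℕ}
  [Fact p.Prime]

theorem einv_smul {θ : IrrX (DM M)} (hθ : EInv M E θ) (n : NE E) : EInv M E ((n : G) • θ) := by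
  intro e he
  have h1 : (n : G)⁻¹ * e * n ∈ E := (Subgroup.mem_normalizer_iff''.1 n.2 e).1 he
  have h2 : e * (n : G) = n * ((n : G)⁻¹ * e * n) := by group
  rw [← mul_smul, h2, mul_smul, hθ _ h1]

private lemma kap_alpha (n : NE E) (c : CE M E) :
    kap M E ((DC M E).α n⁻¹ c) = (DM M).α (n : G)⁻¹ (kap M E c) := by
  apply Subtype.ext
  have h1 : (((DC M E).α n⁻¹ c : CE M E) : NE E) = n⁻¹ * c * n⁻¹⁻¹ := (DC M E).compat n⁻¹ c
  have h2 : (((DM M).α (n : G)⁻¹ (kap M E c) : M) : G) = (n : G)⁻¹ * (kap M E c : M) * (n : G)⁻¹⁻¹ :=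
    (DM M).compat (n : G)⁻¹ (kap M E c)
  change ((((DC M E).α n⁻¹ c : CE M E) : NE E) : G) = _
  rw [h1, h2]
  rfl

private lemma B_smul (n : NE E) (θ : IrrX (DM M)) (φ : IrrX (DC M E)) :
    B (fun c => ((n : G) • θ).chi (kap M E c)) (n • φ).chi =
      B (fun c => θ.chi (kap M E c)) φ.chi := by
  have := Fintype.ofFinite (CE M E)
  rw [B_eq, B_eq]
  congr 1
  symm
  rw [← Equiv.sum_comp ((DC M E).α n⁻¹).toEquiv]
  apply Finset.sum_congr rfl
  intro c _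
  have e1 : (n • φ).chi c⁻¹ = φ.chi (((DC M E).α n⁻¹).toEquiv c)⁻¹ := by
    rw [IrrX.smul_chi]
    congr 1
    change (DC M E).α n⁻¹ c⁻¹ = ((DC M E).α n⁻¹ c)⁻¹
    rw [map_inv]
  have e2 : ((n : G) • θ).chi (kap M E c) = θ.chi (kap M E (((DC M E).α n⁻¹).toEquiv c)) := by
    rw [IrrX.smul_chi, ← kap_alpha]
    rfl
  rw [e1, e2]

theorem lk_smul {θ : IrrX (DM M)} {φ : IrrX (DC M E)} (hL : Lk M E p θ φ) (n : NE E) :
    Lk M E p ((n : G) • θ) (n • φ) := by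
  obtain ⟨m, hm, hpm⟩ := hL
  exact ⟨m, by rw [B_smul, hm], hpm⟩

theorem lk_stab (h : Hyp M E p) {θ : IrrX (DM M)} (hθ : EInv M E θ) {φ : IrrX (DC M E)}
    (hL : Lk M E p θ φ) (n : NE E) : (n : G) • θ = θ ↔ n • φ = φ := by
  have h1 := lk_smul hL n
  constructor
  · intro hn
    rw [hn] at h1
    exact (corr2 h θ hθ).unique h1 hL
  · intro hn
    rw [hn] at h1
    have h2 := (corr1 h φ).unique (y₁ := ⟨(n : G) • θ, einv_smul hθ n⟩) (y₂ := ⟨θ, hθ⟩) h1 hL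
    exact congrArg Subtype.val h2

private lemma smul_eq_iff' (h : Hyp M E p) {θ : IrrX (DM M)} (hθ : EInv M E θ) {φ : IrrX (DC M E)}
    (hL : Lk M E p θ φ) (n n' : NE E) : (n : G) • θ = (n' : G) • θ ↔ n • φ = n' • φ := by
  have h1 := lk_stab h hθ hL (n'⁻¹ * n)
  rw [mul_smul, inv_smul_eq_iff] at h1
  rw [← h1, Subgroup.coe_mul, mul_smul, Subgroup.coe_inv, inv_smul_eq_iff]

theorem index_eq (h : Hyp M E p) {θ : IrrX (DM M)} (hθ : EInv M E θ) {φ : IrrX (DC M E)}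
    (hL : Lk M E p θ φ) : (stabilizer G θ).index = (stabilizer (NE E) φ).index := by
  rw [index_stabilizer, index_stabilizer, ← Nat.card_coe_set_eq, ← Nat.card_coe_set_eq]
  symm
  have hch : ∀ y : orbit (NE E) φ, ∃ n : NE E, n • φ = y.1 := fun y => y.2
  choose f hf using hch
  refine Nat.card_congr (Equiv.ofBijective
    (fun y : orbit (NE E) φ => (⟨(f y : G) • θ, mem_orbit _ _⟩ : orbit G θ)) ⟨?_, ?_⟩)
  · intro y y' hy
    have h1 : (f y : G) • θ = (f y' : G) • θ := congrArg Subtype.val hy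
    rw [smul_eq_iff' h hθ hL, hf, hf] at h1
    exact Subtype.ext h1
  · rintro ⟨_, g, rfl⟩
    obtain ⟨n, hn, m, hm, hg⟩ := exists_decomp' h g
    refine ⟨⟨(⟨n, hn⟩ : NE E) • φ, mem_orbit _ _⟩, ?_⟩
    apply Subtype.ext
    have h1 := hf ⟨(⟨n, hn⟩ : NE E) • φ, mem_orbit _ _⟩
    rw [← smul_eq_iff' h hθ hL] at h1
    change (f ⟨(⟨n, hn⟩ : NE E) • φ, mem_orbit _ _⟩ : G) • θ = g • θ
    rw [h1, hg, mul_smul]
    have h2 : (m : G) • θ = θ := smul_M ⟨m, hm⟩ θ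
    rw [h2]

end Pool.Agent.Helper24.MA
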