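import Pool.Agent.Helper24.MA.Asm.Defs

/-!
# Group theory of the reduction step (module MA-30)

`M ∩ E = 1`: an element has order a power of `p` and a divisor of `|M|`. `kap_fixed`: `x = α e`, `e` in `E`; for `c` in `M ∩ N_G(E)`, `c e c⁻¹ e⁻¹` lies in `E` (as `c` normalizes `E`) and in
`M` (normal), so it is `1` and `e c e⁻¹ = c`. `exists_kap`: then `m` commutes with every `e` in `E`, so it normalizes `E`. `conjEB_kap`: `α c * x * (α c)⁻¹ = x`, because
`x * α c * x⁻¹ = α (e c e⁻¹) = α c`. `card_CE`: `|M ∩ N_G(E)|` divides `|M|` (`kap` is injective). `exists_decomp`: `M` is normal, `Subgroup.mul_normal` or `Subgroup.mem_sup_of_normal_left`.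
`smul_M`: `(m • θ).chi m' = θ.chi (m⁻¹ m' m)`, a class function.
`compat_EB`: `α n * x = (conjEB n x) * α n`, from `conjEB_coe`.
-/

open MulAction Pool.Agent.Helper42.INC
open scoped Pointwise

namespace Pool.Agent.Helper24.MA

variable {G : Type} [Group G] [Finite G] {M : Subgroup G} [M.Normal] {E : Subgroup G} {p : ℕ}
  [Fact p.Prime]

/-- `M ∩ E = 1` -/
private lemma grp_inter (h : Hyp M E p) {g : G} (hgM : g ∈ M) (hgE : g ∈ E) : g = 1 := by
  have hp : p.Prime := Fact.out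
  obtain ⟨k, hk⟩ := h.hE ⟨g, hgE⟩
  have hk' : g ^ p ^ k = 1 := congrArg Subtype.val hk
  have h1 : orderOf g ∣ p ^ k := orderOf_dvd_of_pow_eq_one hk'
  have h2 : orderOf g ∣ Nat.card M := by
    have h3 : orderOf (⟨g, hgM⟩ : M) ∣ Nat.card M := orderOf_dvd_natCard _
    rwa [← Subgroup.orderOf_coe] at h3
  have h4 : Nat.Coprime (p ^ k) (Nat.card M) :=
    Nat.Coprime.pow_left k ((Nat.Prime.coprime_iff_not_dvd hp).2 h.hM)
  have h5 : orderOf g = 1 := Nat.eq_one_of_dvd_coprimes h4 h1 h2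
  exact orderOf_eq_one_iff.1 h5

/-- elements of `M ∩ N_G(E)` commute with `E` -/
private lemma grp_comm (h : Hyp M E p) (c : CE M E) {e : G} (he : e ∈ E) :
    (c.1.1 : G) * e = e * c.1.1 := by
  have h1 : (c.1.1 : G) * e * (c.1.1 : G)⁻¹ ∈ E := (Subgroup.mem_normalizer_iff.1 c.1.2 e).1 he
  have h2 : (c.1.1 : G) * e * (c.1.1 : G)⁻¹ * e⁻¹ ∈ E := E.mul_mem h1 (E.inv_mem he)
  have hcM : (c.1.1 : G) ∈ M := c.2
  have h3 : (c.1.1 : G) * e * (c.1.1 : G)⁻¹ * e⁻¹ ∈ M := by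
    have h4 : e * (c.1.1 : G)⁻¹ * e⁻¹ ∈ M :=
      Subgroup.Normal.conj_mem inferInstance _ (M.inv_mem hcM) e
    have h5 := M.mul_mem hcM h4
    have h6 : (c.1.1 : G) * (e * (c.1.1 : G)⁻¹ * e⁻¹) =
        (c.1.1 : G) * e * (c.1.1 : G)⁻¹ * e⁻¹ := by group
    rwa [h6] at h5
  have h7 := grp_inter h h3 h2
  have h8 : (c.1.1 : G) * e * (c.1.1 : G)⁻¹ = e := by
    rwa [mul_inv_eq_one] at h7
  rwa [mul_inv_eq_iff_eq_mul] at h8

theorem kap_injective : Function.Injective (kap M E) := by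
  intro c c' hcc
  have h1 : (c.1.1 : G) = c'.1.1 := congrArg (fun m : M => (m : G)) hcc
  exact Subtype.ext (Subtype.ext h1)

theorem kap_fixed (h : Hyp M E p) (x : EB M E) (c : CE M E) :
    (x : MulAut M) (kap M E c) = kap M E c := by
  obtain ⟨x, e, he, rfl⟩ := x
  apply Subtype.ext
  have h1 := (DM M).compat e (kap M E c)
  have h2 := grp_comm h c he
  change ((DM M).α e (kap M E c) : G) = (c.1.1 : G)
  change ((DM M).α e (kap M E c) : G) = e * (c.1.1 : G) * e⁻¹ at h1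
  rw [h1, ← h2, mul_inv_cancel_right]

theorem exists_kap (h : Hyp M E p) (m : M) (hm : ∀ x : EB M E, (x : MulAut M) m = m) :
    ∃ c, kap M E c = m := by
  have hc : ∀ e ∈ E, e * (m : G) = m * e := by
    intro e he
    have h1 := hm ⟨(DM M).α e, e, he, rfl⟩
    have h2 := (DM M).compat e m
    change ((DM M).α e m : G) = e * (m : G) * e⁻¹ at h2
    change (DM M).α e m = m at h1
    rw [h1] at h2
    rw [eq_mul_inv_iff_mul_eq] at h2
    exact h2.symm
  have hN : (m : G) ∈ NE E := by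
    refine (Subgroup.mem_normalizer_iff (H := E)).2 fun e => ⟨fun he => ?_, fun he => ?_⟩
    · rw [← hc e he, mul_inv_cancel_right]
      exact he
    · have h1 := hc _ he
      have h2 : e = (m : G) * e * (m : G)⁻¹ := by
        have h3 : (m : G) * e * (m : G)⁻¹ * m = m * ((m : G) * e * (m : G)⁻¹) := h1
        rw [inv_mul_cancel_right] at h3
        exact mul_left_cancel h3
      rw [h2]
      exact he
  exact ⟨⟨⟨m, hN⟩, m.2⟩, rfl⟩

theorem conjEB_kap (h : Hyp M E p) (c : CE M E) : conjEB M E c.1 = 1 := by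
  apply MulEquiv.ext
  rintro ⟨x, e, he, rfl⟩
  apply Subtype.ext
  rw [conjEB_coe]
  change (DM M).α (c.1.1 : G) * (DM M).α e * ((DM M).α (c.1.1 : G))⁻¹ = (DM M).α e
  rw [← map_mul, grp_comm h c he, map_mul, mul_inv_cancel_right]

theorem card_CE (h : Hyp M E p) : ¬ p ∣ Nat.card (CE M E) := by
  intro hd
  exact h.hM (hd.trans (Subgroup.card_dvd_of_injective (kap M E) kap_injective))

theorem exists_decomp (h : Hyp M E p) (g : G) : ∃ m ∈ M, ∃ n ∈ NE E, g = m * n := by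
  have h1 : g ∈ M ⊔ NE E := by
    rw [h.hG]
    exact Subgroup.mem_top g
  obtain ⟨m, hm, n, hn, hmn⟩ := Subgroup.mem_sup_of_normal_left.1 h1
  exact ⟨m, hm, n, hn, hmn.symm⟩

theorem exists_decomp' (h : Hyp M E p) (g : G) : ∃ n ∈ NE E, ∃ m ∈ M, g = n * m := by
  obtain ⟨m, hm, n, hn, hmn⟩ := exists_decomp h g⁻¹
  refine ⟨n⁻¹, (NE E).inv_mem hn, m⁻¹, M.inv_mem hm, ?_⟩
  rw [← mul_inv_rev, ← hmn, inv_inv]

theorem smul_M (m : M) (θ : IrrX (DM M)) : (m : G) • θ = θ := by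
  apply IrrX.ext'
  funext m'
  rw [IrrX.smul_chi]
  have h1 : (DM M).α ((m : G)⁻¹) m' = m⁻¹ * m' * m⁻¹⁻¹ := (DM M).alpha_iota m⁻¹ m'
  rw [h1]
  exact Irr.isClass θ.mem m⁻¹ m'

end Pool.Agent.Helper24.MA
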