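import Pool.Agent.Helper24.MA.Asm.Corr
import Pool.Agent.Helper24.MA.Val.Roots
import Pool.Agent.Helper24.MA.Cross.Line

/-!
# The linear character of the fibre product (module MA-33)

PROOF of `exists_lambda`. `O` from `exists_val`, `X` from `exists_X_gr`. `H = HomC ((sM M O θ).comp (kap M E)) (sC M E O φ)`, `τ = homE .. X` (action of `EB M E`),
`σ = homRep .. S T` with `S x = (RM M O θ).bar x.1.1`, `T x = (RC M E O φ).bar x.1.2` for `x` in the fibre product `Xf M E θ φ` (the condition of `homRep`: with `n = gamProj x.1.2` in `N_G(E)`, for `c`: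
`sM (kap c) S x f T x⁻¹ = S x sM (kap (n⁻¹ c n)) f T x⁻¹ = S x f sC (n⁻¹ c n) T x⁻¹ = S x f T x⁻¹ sC c` by `sM_conj`, `sC_conj`; note `α n⁻¹ (kap c) = kap (n⁻¹ c n)`). Apply `exists_linear_of_gr` with
`c = (conjEB M E).comp (gamProj ∘ snd)`: `hc` needs `S x ∘ X y = X (conjEB n y) ∘ S x`, which follows from `ext_unique` applied to `Y = S x ∘ X y ∘ S x⁻¹`: it implements
`α n * y * (α n)⁻¹ = conjEB n y` on `sM` (`sM_conj`, `gamProj x.1.1 = n`) and `Y ^ p = 1`. We get `l : Xf → kˣ`, lift it to `L : Xf → ℂˣ` with `lift_char`. Let `x`, `c`, `z`, `z'` be as in the statement. Then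
`conjEB (gamProj x.1.2) = conjEB c = 1` (`conjEB_kap`; the scalars project to `1`) and `σ x f = z sM (kap c) f (z' sC c)⁻¹ = (z / z') f` with the residues of `z`, `z'` (`red_scalar`, `gamRep_sc`), so
`l x` is the residue of `z / z'`. `z` is a root of unity of order dividing `finrank θ.V * |M|`, prime to `p` (`corr3`, `Hyp.hM`), likewise `z'` (`finrank φ.V`, `card_CE`), and `L x` has order prime to `p`; so
`L x = z / z'` by `root_unique` (with the product of the three exponents).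
-/

open MulAction Pool.Agent.Helper42.INC
open scoped Pointwise

namespace Pool.Agent.Helper24.MA

variable {G : Type} [Group G] [Finite G] {M : Subgroup G} [M.Normal] {E : Subgroup G} {p : ℕ}
  [Fact p.Prime]

theorem kap_alpha (n : NE E) (c : CE M E) :
    kap M E ((DC M E).α n c) = (DM M).α (n : G) (kap M E c) := by
  apply Subtype.ext
  rfl

section

variable (O : ValuationSubring ℂ) (θ : IrrX (DM M)) (φ : IrrX (DC M E))

/-- the projection of the fibre product to the normalizer -/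
noncomputable def lamPr : Xf M E θ φ →* NE E :=
  (gamProj (DC M E) φ.rep).comp ((MonoidHom.snd _ _).comp (Xf M E θ φ).subtype)

lemma lamPr_spec (x : Xf M E θ φ) : gamProj (DM M) θ.rep x.1.1 = (lamPr θ φ x : G) := x.2

/-- the action on the first space -/
noncomputable def lamS : Representation (IsLocalRing.ResidueField O) (Xf M E θ φ)
    (Fin (RM M O θ).n → IsLocalRing.ResidueField O) :=
  (RM M O θ).bar.comp ((MonoidHom.fst _ _).comp (Xf M E θ φ).subtype)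

/-- the action on the second space -/
noncomputable def lamT : Representation (IsLocalRing.ResidueField O) (Xf M E θ φ)
    (Fin (RC M E O φ).n → IsLocalRing.ResidueField O) :=
  (RC M E O φ).bar.comp ((MonoidHom.snd _ _).comp (Xf M E θ φ).subtype)

lemma lamS_conj (x : Xf M E θ φ) (m : M) :
    lamS O θ φ x ∘ₗ sM M O θ m = sM M O θ ((DM M).α (lamPr θ φ x : G) m) ∘ₗ lamS O θ φ x := by
  rw [← lamPr_spec]
  exact sM_conj θ x.1.1 m

lemma lamT_conj (x : Xf M E θ φ) (c : CE M E) :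
    lamT O θ φ x ∘ₗ sC M E O φ c =
      sC M E O φ ((DC M E).α (lamPr θ φ x) c) ∘ₗ lamT O θ φ x :=
  sC_conj φ x.1.2 c

lemma lam_ok (y : Xf M E θ φ) (f) (hf : f ∈ HomC ((sM M O θ).comp (kap M E)) (sC M E O φ)) :
    lamS O θ φ y ∘ₗ f ∘ₗ lamT O θ φ y⁻¹ ∈ HomC ((sM M O θ).comp (kap M E)) (sC M E O φ) := by
  intro c
  set n := lamPr θ φ y with hn
  have e1 : ((sM M O θ).comp (kap M E)) c ∘ₗ lamS O θ φ y =
      lamS O θ φ y ∘ₗ ((sM M O θ).comp (kap M E)) ((DC M E).α n⁻¹ c) := by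
    change sM M O θ (kap M E c) ∘ₗ _ = _ ∘ₗ sM M O θ (kap M E ((DC M E).α n⁻¹ c))
    rw [lamS_conj, kap_alpha, ← hn]
    congr 2
    rw [← MulAut.mul_apply, ← map_mul]
    simp
  have e2 : sC M E O φ ((DC M E).α n⁻¹ c) ∘ₗ lamT O θ φ y⁻¹ = lamT O θ φ y⁻¹ ∘ₗ sC M E O φ c := by
    rw [lamT_conj, map_inv (lamPr θ φ), ← hn]
  have e3 := hf ((DC M E).α n⁻¹ c)
  calc ((sM M O θ).comp (kap M E)) c ∘ₗ (lamS O θ φ y ∘ₗ f ∘ₗ lamT O θ φ y⁻¹)
      = (((sM M O θ).comp (kap M E)) c ∘ₗ lamS O θ φ y) ∘ₗ (f ∘ₗ lamT O θ φ y⁻¹) := rfl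
    _ = lamS O θ φ y ∘ₗ (((sM M O θ).comp (kap M E)) ((DC M E).α n⁻¹ c) ∘ₗ f) ∘ₗ
        lamT O θ φ y⁻¹ := by rw [e1]; rfl
    _ = lamS O θ φ y ∘ₗ f ∘ₗ (sC M E O φ ((DC M E).α n⁻¹ c) ∘ₗ lamT O θ φ y⁻¹) := by
        rw [e3]; rfl
    _ = _ := by rw [e2]; rfl

end

section

variable {O : ValuationSubring ℂ}

lemma lam_key (hO : (p : O) ∈ IsLocalRing.maximalIdeal O) (h : Hyp M E p)
    (θ : IrrX (DM M)) (hθ : EInv M E θ) (φ : IrrX (DC M E))
    (X : Representation (IsLocalRing.ResidueField O) (EB M E)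
      (Fin (RM M O θ).n → IsLocalRing.ResidueField O))
    (hX : ∀ (x : EB M E) (m : M), X x ∘ₗ sM M O θ m =
        sM M O θ ((EB M E).subtype x m) ∘ₗ X x) (y : Xf M E θ φ) (x : EB M E) :
    lamS O θ φ y ∘ₗ X x = X (conjEB M E (lamPr θ φ y) x) ∘ₗ lamS O θ φ y := by
  have := charP_res O hO
  have := Fintype.ofFinite M
  have hMk : (Fintype.card M : IsLocalRing.ResidueField O) ≠ 0 := by
    rw [Ne, CharP.cast_eq_zero_iff (IsLocalRing.ResidueField O) p]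
    rw [← Nat.card_eq_fintype_card]
    exact h.hM
  have hF := fou_M hO h
  have hnt : Nontrivial (Fin (RM M O θ).n → IsLocalRing.ResidueField O) := by
    have h1 := hF.dim ⟨θ, hθ⟩
    by_contra hcon
    rw [not_nontrivial_iff_subsingleton] at hcon
    apply h1
    have : Module.finrank (IsLocalRing.ResidueField O)
      (Fin (RM M O θ).n → IsLocalRing.ResidueField O) = 0 := Module.finrank_zero_of_subsingleton
    rw [this]; simp
  have hSS : lamS O θ φ y⁻¹ ∘ₗ lamS O θ φ y = LinearMap.id := by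
    change lamS O θ φ y⁻¹ * lamS O θ φ y = 1
    rw [← map_mul, inv_mul_cancel, map_one]
  have hSS' : lamS O θ φ y ∘ₗ lamS O θ φ y⁻¹ = LinearMap.id := by
    change lamS O θ φ y * lamS O θ φ y⁻¹ = 1
    rw [← map_mul, mul_inv_cancel, map_one]
  have hY : lamS O θ φ y ∘ₗ X x ∘ₗ lamS O θ φ y⁻¹ = X (conjEB M E (lamPr θ φ y) x) := by
    refine ext_unique (p := p) h.hB (EB M E).subtype (sM M O θ)
      (fun f hf => fou_scalar hF hMk ⟨θ, hθ⟩ f hf) X hX (conjEB M E (lamPr θ φ y) x) _ ?_ ?_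
    · intro m
      have e1 := lamS_conj O θ φ y⁻¹ m
      have e2 := hX x ((DM M).α (lamPr θ φ y⁻¹ : G) m)
      have e3 := lamS_conj O θ φ y ((EB M E).subtype x ((DM M).α (lamPr θ φ y⁻¹ : G) m))
      have e4 : (DM M).α (lamPr θ φ y : G)
          ((EB M E).subtype x ((DM M).α (lamPr θ φ y⁻¹ : G) m)) =
          (EB M E).subtype (conjEB M E (lamPr θ φ y) x) m := by
        change _ = ((DM M).α (lamPr θ φ y : G) * x * ((DM M).α (lamPr θ φ y : G))⁻¹) m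
        rw [map_inv, Subgroup.coe_inv, map_inv]
        rfl
      calc (lamS O θ φ y ∘ₗ X x ∘ₗ lamS O θ φ y⁻¹) ∘ₗ sM M O θ m
          = lamS O θ φ y ∘ₗ X x ∘ₗ (lamS O θ φ y⁻¹ ∘ₗ sM M O θ m) := rfl
        _ = lamS O θ φ y ∘ₗ (X x ∘ₗ sM M O θ ((DM M).α (lamPr θ φ y⁻¹ : G) m)) ∘ₗ
            lamS O θ φ y⁻¹ := by rw [e1]; rfl
        _ = (lamS O θ φ y ∘ₗ sM M O θ ((EB M E).subtype x ((DM M).α (lamPr θ φ y⁻¹ : G) m))) ∘ₗ
            X x ∘ₗ lamS O θ φ y⁻¹ := by rw [e2]; rfl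
        _ = _ := by rw [e3, e4]; rfl
    · have h1 : ∀ n : ℕ, (lamS O θ φ y ∘ₗ X x ∘ₗ lamS O θ φ y⁻¹) ^ n =
          lamS O θ φ y ∘ₗ (X x ^ n) ∘ₗ lamS O θ φ y⁻¹ := by
        intro n
        induction n with
        | zero =>
          rw [pow_zero, pow_zero]
          exact hSS'.symm
        | succ n ih =>
          rw [pow_succ, ih, pow_succ]
          calc (lamS O θ φ y ∘ₗ (X x ^ n) ∘ₗ lamS O θ φ y⁻¹) *
              (lamS O θ φ y ∘ₗ X x ∘ₗ lamS O θ φ y⁻¹)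
              = lamS O θ φ y ∘ₗ (X x ^ n) ∘ₗ (lamS O θ φ y⁻¹ ∘ₗ lamS O θ φ y) ∘ₗ X x ∘ₗ
                lamS O θ φ y⁻¹ := rfl
            _ = _ := by rw [hSS]; rfl
      rw [h1, ← map_pow, h.hB.pow, map_one]
      exact hSS'
  rw [← hY]
  calc lamS O θ φ y ∘ₗ X x = lamS O θ φ y ∘ₗ X x ∘ₗ LinearMap.id := rfl
    _ = _ := by rw [← hSS]; rfl

end

lemma mul_smul_id {K W : Type} [Field K] [AddCommGroup W] [Module K W] (A : W →ₗ[K] W) (r : K) :
    A * (r • (LinearMap.id : W →ₗ[K] W)) = r • A := by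
  ext w
  simp [Module.End.mul_apply]

section

variable {O : ValuationSubring ℂ}

lemma lamS_val (θ : IrrX (DM M)) (φ : IrrX (DC M E)) (x : Xf M E θ φ) (c : CE M E)
    (z : Sc M θ.V) (h1 : x.1.1 = gamInc (DM M) θ.rep (kap M E c) * gamSc (DM M) θ.rep z)
    (hzO : ((z.1 : ℂˣ) : ℂ) ∈ O) :
    lamS O θ φ x = IsLocalRing.residue O ⟨((z.1 : ℂˣ) : ℂ), hzO⟩ • sM M O θ (kap M E c) := by
  change (RM M O θ).bar x.1.1 = _
  rw [h1, map_mul, red_scalar (RM M O θ) (gamSc (DM M) θ.rep z) _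
    (gamRep_sc (DM M) θ.rep z) hzO]
  exact mul_smul_id _ _

lemma lamT_val (θ : IrrX (DM M)) (φ : IrrX (DC M E)) (x : Xf M E θ φ) (c : CE M E)
    (z' : Sc (CE M E) φ.V)
    (h2 : x.1.2 = gamInc (DC M E) φ.rep c * gamSc (DC M E) φ.rep z')
    (hz'O : ((z'.1 : ℂˣ) : ℂ) ∈ O) :
    lamT O θ φ x = IsLocalRing.residue O ⟨((z'.1 : ℂˣ) : ℂ), hz'O⟩ • sC M E O φ c := by
  change (RC M E O φ).bar x.1.2 = _
  rw [h2, map_mul, red_scalar (RC M E O φ) (gamSc (DC M E) φ.rep z') _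
    (gamRep_sc (DC M E) φ.rep z') hz'O]
  exact mul_smul_id _ _

end

lemma lamPr_val (h : Hyp M E p) (θ : IrrX (DM M)) (φ : IrrX (DC M E)) (x : Xf M E θ φ)
    (c : CE M E) (z' : Sc (CE M E) φ.V)
    (h2 : x.1.2 = gamInc (DC M E) φ.rep c * gamSc (DC M E) φ.rep z') :
    ((conjEB M E).comp (lamPr θ φ)) x = 1 := by
  have h3 : lamPr θ φ x = c.1 := by
    change gamProj (DC M E) φ.rep x.1.2 = _
    rw [h2, map_mul, gamProj_inc, gamProj_sc, mul_one]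
    rfl
  rw [MonoidHom.comp_apply, h3, conjEB_kap h]

lemma hom_scalar {K C Y V W : Type} [Field K] [Group C] [Group Y] [AddCommGroup V] [Module K V]
    [AddCommGroup W] [Module K W] (σ : Representation K C V) (τ : Representation K C W)
    (S : Representation K Y V) (T : Representation K Y W)
    (hh : ∀ y, ∀ f ∈ HomC σ τ, S y ∘ₗ f ∘ₗ T y⁻¹ ∈ HomC σ τ) (x : Y) (c : C) (a b r : K)
    (hS : S x = a • σ c) (hT : T x = b • τ c) (hr : a = b * r) (v : HomC σ τ) :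
    homRep σ τ S T hh x v = r • v := by
  apply Subtype.ext
  change S x ∘ₗ v.1 ∘ₗ T x⁻¹ = r • v.1
  have hTT : T x ∘ₗ T x⁻¹ = LinearMap.id := by
    change T x * T x⁻¹ = 1
    rw [← map_mul, mul_inv_cancel, map_one]
  have e1 : S x ∘ₗ v.1 = (r • v.1) ∘ₗ T x := by
    rw [hS, hT]
    have h5 : σ c ∘ₗ v.1 = v.1 ∘ₗ τ c := v.2 c
    rw [LinearMap.smul_comp, h5, LinearMap.comp_smul, LinearMap.smul_comp, smul_smul, hr]
  calc S x ∘ₗ v.1 ∘ₗ T x⁻¹ = (S x ∘ₗ v.1) ∘ₗ T x⁻¹ := rfl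
    _ = (r • v.1) ∘ₗ (T x ∘ₗ T x⁻¹) := by rw [e1]; rfl
    _ = _ := by rw [hTT]; rfl

lemma sc_pow {M V : Type} [Group M] [AddCommGroup V] [Module ℂ V] (z : Sc M V) :
    ((z.1 : ℂˣ) : ℂ) ^ (Module.finrank ℂ V * Nat.card M) = 1 := by
  have h3 := (mem_rootsOfUnity _ z.1).1 z.2
  rw [← Units.val_pow_eq_pow_val, h3, Units.val_one]

lemma root_final {O : ValuationSubring ℂ} (hO : (p : O) ∈ IsLocalRing.maximalIdeal O)
    {z z' l : ℂ} {K1 K2 N : ℕ} (hK1 : ¬ p ∣ K1) (hK2 : ¬ p ∣ K2) (hN : ¬ p ∣ N)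
    (hz : z ^ K1 = 1) (hz' : z' ^ K2 = 1) (hl : l ^ N = 1)
    (hlO : l ∈ O) (H : ∀ (hz : z ∈ O) (hz' : z' ∈ O) (w : O),
      IsLocalRing.residue O ⟨z, hz⟩ = IsLocalRing.residue O ⟨z', hz'⟩ * IsLocalRing.residue O w →
      IsLocalRing.residue O ⟨l, hlO⟩ = IsLocalRing.residue O w) : l = z / z' := by
  have hpp : p.Prime := Fact.out
  have hK1p : 0 < K1 := by
    rcases Nat.eq_zero_or_pos K1 with h0 | h0
    · rw [h0] at hK1; exact absurd (dvd_zero p) hK1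
    · exact h0
  have hK2p : 0 < K2 := by
    rcases Nat.eq_zero_or_pos K2 with h0 | h0
    · rw [h0] at hK2; exact absurd (dvd_zero p) hK2
    · exact h0
  have hz'0 : z' ≠ 0 := by
    intro h0
    rw [h0, zero_pow hK2p.ne'] at hz'
    exact zero_ne_one hz'
  have hw : (z / z') ^ (K1 * K2) = 1 := by
    rw [div_pow, pow_mul, hz, one_pow, mul_comm K1 K2, pow_mul, hz', one_pow, div_one]
  have hwO : z / z' ∈ O := mem_of_pow_eq_one O (Nat.mul_pos hK1p hK2p) hw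
  have hzO : z ∈ O := mem_of_pow_eq_one O hK1p hz
  have hz'O : z' ∈ O := mem_of_pow_eq_one O hK2p hz'
  have hr := H hzO hz'O ⟨z / z', hwO⟩ (by
    rw [← map_mul]
    congr 1
    apply Subtype.ext
    change z = z' * (z / z')
    rw [mul_div_cancel₀ _ hz'0])
  refine root_unique O hO (n := N * (K1 * K2)) (hpp.not_dvd_mul hN (hpp.not_dvd_mul hK1 hK2))
    ?_ ?_ hlO hwO hr
  · rw [pow_mul, hl, one_pow]
  · rw [mul_comm N, pow_mul, hw, one_pow]

theorem exists_lambda (h : Hyp M E p) (θ : IrrX (DM M)) (hθ : EInv M E θ) (φ : IrrX (DC M E))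
    (hL : Lk M E p θ φ) : ∃ L : Xf M E θ φ →* ℂˣ,
      ∀ (x : Xf M E θ φ) (c : CE M E) (z : Sc M θ.V) (z' : Sc (CE M E) φ.V),
        x.1.1 = gamInc (DM M) θ.rep (kap M E c) * gamSc (DM M) θ.rep z →
        x.1.2 = gamInc (DC M E) φ.rep c * gamSc (DC M E) φ.rep z' →
        ((L x : ℂˣ) : ℂ) = ((z.1 : ℂˣ) : ℂ) / ((z'.1 : ℂˣ) : ℂ) := by
  obtain ⟨O, hO⟩ := exists_val p
  have := charP_res O hO
  have := Fintype.ofFinite (EB M E)
  obtain ⟨X, hX, hgr⟩ := exists_X_gr hO h θ hθ φ hL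
  have hcomm : ∀ (g : Xf M E θ φ) (x : EB M E),
      homRep ((sM M O θ).comp (kap M E)) (sC M E O φ) (lamS O θ φ) (lamT O θ φ)
        (lam_ok O θ φ) g ∘ₗ homE ((sM M O θ).comp (kap M E)) (sC M E O φ) X
        (comm_kappa hX (kap M E) (kap_fixed h)) x =
      homE ((sM M O θ).comp (kap M E)) (sC M E O φ) X
        (comm_kappa hX (kap M E) (kap_fixed h)) (((conjEB M E).comp (lamPr θ φ)) g x) ∘ₗ
      homRep ((sM M O θ).comp (kap M E)) (sC M E O φ) (lamS O θ φ) (lamT O θ φ)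
        (lam_ok O θ φ) g := by
    intro g x
    apply LinearMap.ext
    intro f
    apply Subtype.ext
    change lamS O θ φ g ∘ₗ (X x ∘ₗ f.1 ∘ₗ LinearMap.id) ∘ₗ lamT O θ φ g⁻¹ =
      X (conjEB M E (lamPr θ φ g) x) ∘ₗ (lamS O θ φ g ∘ₗ f.1 ∘ₗ lamT O θ φ g⁻¹) ∘ₗ LinearMap.id
    calc lamS O θ φ g ∘ₗ (X x ∘ₗ f.1 ∘ₗ LinearMap.id) ∘ₗ lamT O θ φ g⁻¹
        = (lamS O θ φ g ∘ₗ X x) ∘ₗ f.1 ∘ₗ lamT O θ φ g⁻¹ := rfl
      _ = _ := by rw [lam_key hO h θ hθ φ X hX g x]; rfl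
  obtain ⟨l, hl⟩ := exists_linear_of_gr p h.hB _ _ ((conjEB M E).comp (lamPr θ φ)) hcomm hgr
  obtain ⟨L, hLres, N, hN, hLN⟩ := lift_char O hO l
  refine ⟨L, fun x c z z' h1 h2 => ?_⟩
  obtain ⟨hsq, hne⟩ := corr3 h θ hθ φ hL
  have hθd : ¬ p ∣ Module.finrank ℂ θ.V := fun hd => hne ((ZMod.natCast_eq_zero_iff _ _).2 hd)
  have hφd : ¬ p ∣ Module.finrank ℂ φ.V := by
    intro hd
    have h3 : (Module.finrank ℂ φ.V : ZMod p) = 0 := (ZMod.natCast_eq_zero_iff _ _).2 hd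
    rw [h3, zero_pow two_ne_zero] at hsq
    exact hne (pow_eq_zero_iff two_ne_zero |>.1 hsq)
  obtain ⟨hLO, hLr⟩ := hLres x
  have hLN' : ((L x : ℂˣ) : ℂ) ^ N = 1 := by
    rw [← Units.val_pow_eq_pow_val, hLN x, Units.val_one]
  have hpp : p.Prime := Fact.out
  refine root_final hO (hpp.not_dvd_mul hθd h.hM) (hpp.not_dvd_mul hφd (card_CE h)) hN
    (sc_pow z) (sc_pow z') hLN' hLO (fun hzO hz'O w hzw => ?_)
  have hSx := lamS_val θ φ x c z h1 hzO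
  have hTx := lamT_val θ φ x c z' h2 hz'O
  have hcx := lamPr_val h θ φ x c z' h2
  have hlx := hl x hcx _ (fun v => hom_scalar _ _ _ _ _ x c _ _ _ hSx hTx hzw v)
  exact hLr.trans hlx

end Pool.Agent.Helper24.MA
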