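import Pool.Agent.Helper24.MA.Asm.Equi
import Pool.Agent.Helper24.MA.Asm.CntB
import Pool.Agent.Helper24.MA.Asm.Lambda

/-!
# The reduction step (module MA-37)

`fib_eq`: `FibG p θ s` with `i = (stabilizer G θ).index * finrank θ.V` is (after regrouping the product in its definition) the set of `card_fib_star`, so its cardinality is
`cntR p (scStar ..) invSc (s * (i ^ 2)⁻¹)`; likewise for `φ` with `i' = (stabilizer (NE E) φ).index * finrank φ.V`. `i ^ 2 = i' ^ 2` in `ZMod p` by `index_eq`, `corr3`, and `i ≠ 0`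
(`hidx`, `corr3`). The two relative counts agree by `cntR_one`, `cntR_twist` (with `exists_lambda`), `cntR_two` (`hst` is `lk_stab`).
`step_cnt`: `P` a Sylow `p`-subgroup of `G` with `E ≤ P`. Let `R = RepX P (IrrX (DM M))`; `cnt_clifford` with `lam = repX` gives `cnt p G s = ∑ r, Nat.card (FibG p (repX r) s)` (`repX_h1`, `repX_h2`). Each `repX r` is
`P`-fixed, so `EInv` (`E ≤ P`), let `F r` be the `φ` with `Lk (repX r) φ` (`corr2`). `cnt_clifford` for `N_G(E)` with the same `R` and `lam = F`: h1: `F r = x • F r'` implies `Lk (repX r) (x • F r')` and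
`Lk (x • repX r') (x • F r')` (`lk_smul`), so `repX r = x • repX r'` by `corr1`, `r = r'` by `repX_h1`. h2: let `φ` have `p ∤ index`; take `θ` with `Lk θ φ` (`corr1`); by `index_eq`, `repX_h2` there are `r`, `x` with
`θ = x • repX r`; `x = n * m` (`exists_decomp'`), `m` fixes `repX r`, so `θ = n • repX r`, and `Lk θ (n • F r)` gives `φ = n • F r` (`corr2`). The summands agree by `fib_eq` (`p` does not divide the index of the stabilizer of the `P`-fixed `repX r`: `qfix_not_dvd`).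
-/

open MulAction Pool.Agent.Helper42.INC
open scoped Pointwise

namespace Pool.Agent.Helper24.MA

variable {G : Type} [Group G] [Finite G] {M : Subgroup G} [M.Normal] {E : Subgroup G} {p : ℕ}
  [Fact p.Prime]

theorem fib_eq (h : Hyp M E p) {θ : IrrX (DM M)} (hθ : EInv M E θ) {φ : IrrX (DC M E)}
    (hL : Lk M E p θ φ) (hidx : ¬ p ∣ (stabilizer G θ).index) (s : ZMod p) :
    Nat.card (FibG p θ s) = Nat.card (FibG p φ s) := by
  have e1 : Nat.card (FibG p θ s) = Nat.card {ψ : Irr (Gam (DM M) θ.rep) //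
      InvM (DM M) θ.rep ψ.1 ∧ ScInv (DM M) θ.rep ψ.1 ∧
      ((((stabilizer G θ).index * Module.finrank ℂ θ.V) * deg ψ.1 : ℕ) : ZMod p) ^ 2 = s} := by
    apply Nat.card_congr
    apply Equiv.subtypeEquivRight
    intro ψ
    rw [mul_assoc]
  have e2 : Nat.card (FibG p φ s) = Nat.card {ψ : Irr (Gam (DC M E) φ.rep) //
      InvM (DC M E) φ.rep ψ.1 ∧ ScInv (DC M E) φ.rep ψ.1 ∧
      ((((stabilizer (NE E) φ).index * Module.finrank ℂ φ.V) * deg ψ.1 : ℕ) : ZMod p) ^ 2 = s} := by
    apply Nat.card_congr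
    apply Equiv.subtypeEquivRight
    intro ψ
    rw [mul_assoc]
  obtain ⟨h3, h4⟩ := corr3 h θ hθ φ hL
  have h5 : ((stabilizer G θ).index : ZMod p) ≠ 0 := by
    intro h6
    exact hidx ((ZMod.natCast_eq_zero_iff _ _).1 h6)
  have hi : (((stabilizer G θ).index * Module.finrank ℂ θ.V : ℕ) : ZMod p) ≠ 0 := by
    rw [Nat.cast_mul]
    exact mul_ne_zero h5 h4
  have hsq : (((stabilizer (NE E) φ).index * Module.finrank ℂ φ.V : ℕ) : ZMod p) ^ 2 =
      (((stabilizer G θ).index * Module.finrank ℂ θ.V : ℕ) : ZMod p) ^ 2 := by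
    rw [index_eq h hθ hL, Nat.cast_mul, Nat.cast_mul, mul_pow, mul_pow, h3]
  have hi' : (((stabilizer (NE E) φ).index * Module.finrank ℂ φ.V : ℕ) : ZMod p) ≠ 0 := by
    intro h6
    rw [h6, zero_pow two_ne_zero] at hsq
    exact pow_ne_zero 2 hi hsq.symm
  have hst : ∀ n : NE E, (n : G) • θ = θ ↔ n • φ = φ := fun n => lk_stab h hθ hL n
  rw [e1, e2, card_fib_star (DM M) θ.rep _ s hi, card_fib_star (DC M E) φ.rep _ s hi', hsq]
  obtain ⟨L, hLL⟩ := exists_lambda h θ hθ φ hL
  rw [cntR_one h θ φ hst, cntR_two θ φ hst, cntR_twist θ φ L hLL]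

theorem step_cnt (h : Hyp M E p) (P : Sylow p G) (hEP : E ≤ P) (s : ZMod p) (hs : s ≠ 0) :
    cnt p G s = cnt p (NE E) s := by
  classical
  have := Fintype.ofFinite (RepX P (IrrX (DM M)))
  have hE : ∀ r : RepX P (IrrX (DM M)), EInv M E (repX r) := fun r e he =>
    repX_qfix r e (hEP he)
  have hex : ∀ r : RepX P (IrrX (DM M)), ∃ φ : IrrX (DC M E), Lk M E p (repX r) φ := fun r =>
    (corr2 h (repX r) (hE r)).exists
  choose F hF using hex
  rw [cnt_clifford (D := DM M) (RepX P (IrrX (DM M))) repX repX_h1 repX_h2 s hs,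
    cnt_clifford (D := DC M E) (RepX P (IrrX (DM M))) F ?_ ?_ s hs]
  · apply Finset.sum_congr rfl
    intro r _
    exact fib_eq h (hE r) (hF r) (qfix_not_dvd (repX_qfix r)) s
  · intro r r' x hx
    have h1 := hF r
    rw [hx] at h1
    have h2 := lk_smul (hF r') x
    have h3 := (corr1 h (x • F r')).unique (y₁ := ⟨repX r, hE r⟩)
      (y₂ := ⟨(x : G) • repX r', einv_smul (hE r') x⟩) h1 h2
    exact repX_h1 r r' (x : G) (congrArg Subtype.val h3)
  · intro φ hφ
    obtain ⟨⟨θ, hθ⟩, hL⟩ := (corr1 h φ).exists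
    have hi := index_eq h hθ hL
    rw [← hi] at hφ
    obtain ⟨r, x, hx⟩ := repX_h2 (Q := P) θ hφ
    obtain ⟨n, hn, m, hm, hg⟩ := exists_decomp' h x
    have h2 : (m : G) • repX r = repX r := smul_M ⟨m, hm⟩ (repX r)
    rw [hg, mul_smul, h2] at hx
    have h3 := lk_smul (hF r) ⟨n, hn⟩
    have h4 : Lk M E p θ ((⟨n, hn⟩ : NE E) • F r) := by
      rw [hx]
      exact h3
    exact ⟨r, ⟨n, hn⟩, (corr2 h θ hθ).unique hL h4⟩

end Pool.Agent.Helper24.MA
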